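import Pool.Agent.H69.BP.Red

/-!
# The blow-up of a model-complete core is a model-complete core
-/

set_option autoImplicit false

namespace Pool.Agent.H69.BP

section
variable {σ : Sig} {M V : Type} {k : ℕ}

/-- a finite set is contained in an injective tuple -/
theorem exists_tuple {V : Type} [Infinite V] {x y : V} (hne : x ≠ y) {k : ℕ} (hk : 0 < k) :
    ∃ t : Fin (k + 1) → V, Function.Injective t ∧ ∃ i j, t i = x ∧ t j = y := by
  classical
  obtain ⟨T, hT1, hT2⟩ := Infinite.exists_superset_card_eq ({x, y} : Finset V) (k + 1) (by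
    rw [Finset.card_pair hne]; omega)
  let φ := (T.equivFinOfCardEq hT2).symm
  refine ⟨fun i => (φ i).1, fun i j h => φ.injective (Subtype.ext h),
    φ.symm ⟨x, hT1 (by simp)⟩, φ.symm ⟨y, hT1 (by simp)⟩, ?_, ?_⟩
  · simp
  · simp

/-- the blow-up of a model-complete core is a model-complete core -/
theorem blow_core [Countable V] [Nonempty M] {A : Str σ M} (hA : ModelCompleteCore A)
    {c : (Fin (k + 1) → V) → M} (hc : Ext c) (hk : 0 < k) :
    ModelCompleteCore (blowStr A c) := by
  classical
  intro e he n a
  have hE : ∀ t t' : Fin (k + 1) → V, Function.Injective t → Function.Injective t' →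
      c t = c t' → Function.Injective (e ∘ t) ∧ c (e ∘ t) = c (e ∘ t') := by
    intro t t' h1 h2 h3
    have h4 : eqRel c (e ∘ pair t t') := he none (pair t t') (eqRel_pair.2 ⟨h1, h2, h3⟩)
    rw [comp_pair, eqRel_pair] at h4
    exact ⟨h4.1, h4.2.2⟩
  choose s hs using hc.surj
  let β : M → M := fun i => c (e ∘ s i)
  have hβ : IsHom A A β := by
    intro R t ht
    have h1 : upRel (A R) c fun p => s (t p.1) p.2 := by
      refine ⟨fun i => (hs (t i)).1, ?_⟩
      have e1 : (fun i => c fun j => s (t i) j) = t := by
        funext i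
        exact (hs (t i)).2
      rw [e1]
      exact ht
    have h2 : upRel (A R) c (e ∘ fun p => s (t p.1) p.2) := he (some R) _ h1
    exact h2.2
  have hβ' : ∀ t, Function.Injective t → c (e ∘ t) = β (c t) := fun t ht =>
    (hE t (s (c t)) ht (hs _).1 (hs _).2.symm).2
  have hVne : Nonempty V := hc.nonempty (Classical.arbitrary M)
  have hV : Infinite V := (blow_noAlgebraicity A hc).infinite
  have hinj : Function.Injective e := by
    intro x y hxy
    by_contra hne
    obtain ⟨t, ht, i, j, hi, hj⟩ := exists_tuple hne hk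
    have h1 := (hE t t ht ht rfl).1
    apply hne
    rw [← hi, ← hj]
    congr 1
    apply h1
    change e (t i) = e (t j)
    rw [hi, hj, hxy]
  -- the colours that occur
  let S : Finset V := Finset.univ.image a
  let T : Finset (Fin (k + 1) → V) :=
    (Fintype.piFinset fun _ => S).filter fun t => Function.Injective t
  let Γ : Finset M := T.image c
  let φ := Γ.equivFin.symm
  obtain ⟨α, hα1, hα2⟩ := hA β hβ Γ.card fun i => (φ i).1
  have hα : ∀ m ∈ Γ, α m = β m := by
    intro m hm
    have h1 := congrFun hα2 (φ.symm ⟨m, hm⟩)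
    simpa using h1
  obtain ⟨g, h1, h2⟩ := extend_blow hc hα1 S e hinj.injOn fun t htS ht => by
    rw [hβ' t ht]
    refine (hα _ (Finset.mem_image_of_mem c ?_)).symm
    simp only [T, Finset.mem_filter, Fintype.mem_piFinset]
    exact ⟨htS, ht⟩
  refine ⟨g, h1, ?_⟩
  funext i
  exact h2 _ (Finset.mem_image_of_mem a (Finset.mem_univ i))

end

end Pool.Agent.H69.BP
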