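import Pool.Agent.H69.BP.Core

/-!
# Relations of bounded arity do not witness hardness
-/

set_option autoImplicit false

namespace Pool.Agent.H69.BP

/-- pp-definability with the parameters `p` -/
def PPDefPar {σ : Sig} {M : Type} {ι : Type} {m : ℕ} (A : Str σ M) (p : Fin m → M)
    (R : (ι → M) → Prop) : Prop :=
  ∃ S : (ι ⊕ Fin m → M) → Prop, PPDef A S ∧ ∀ a, R a ↔ S (Sum.elim a p)

/-! ### the triangle with named vertices -/

/-- the signature -/
@[reducible] def namedSig : Sig where
  Sym := Option (Fin 3)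
  Ar := fun s => match s with
    | none => Bool
    | some _ => Unit
  finSym := inferInstance
  finAr := by
    intro s
    cases s with
    | none => exact (inferInstance : Finite Bool)
    | some _ => exact (inferInstance : Finite Unit)

/-- the triangle with named vertices -/
def K3n : Str namedSig (Fin 3)
  | none => fun t => t false ≠ t true
  | some i => fun t => t () = i

theorem K3n_homogeneous : Homogeneous K3n := by
  intro S f _ h
  refine ⟨Equiv.refl _, isAut_refl _, fun x hx => ?_⟩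
  have h1 : K3n (some x) (fun _ => x) ↔ K3n (some x) (f ∘ fun _ => x) :=
    h (some x) (fun _ => x) fun _ => hx
  exact (h1.1 rfl).symm

theorem K3n_crit : Crit K3n 2 := by
  classical
  intro X _ C hC
  have h1 : ∀ x : X, ∃ i : Fin 3, ∀ j, C (some j) (fun _ => x) ↔ j = i := by
    intro x
    obtain ⟨h, hh⟩ := hC {x} (by simp)
    refine ⟨h ⟨x, by simp⟩, fun j => ?_⟩
    have h2 : sub C {x} (some j) (fun _ => ⟨x, by simp⟩) ↔
        K3n (some j) (h ∘ fun _ => ⟨x, by simp⟩) := hh.2 (some j) fun _ => ⟨x, by simp⟩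
    exact h2.trans eq_comm
  choose i hi using h1
  have h2 : ∀ x y : X, ∃ e : X → Fin 3, (e x = e y → x = y) ∧
      (∀ z, (z = x ∨ z = y) → ∀ j, C (some j) (fun _ => z) ↔ e z = j) ∧
      ∀ t : Bool → X, (∀ b, t b = x ∨ t b = y) → (C none t ↔ e (t false) ≠ e (t true)) := by
    intro x y
    obtain ⟨h, hh⟩ := hC {x, y} Finset.card_le_two
    have hmem : ∀ z, (z = x ∨ z = y) → z ∈ ({x, y} : Finset X) := by
      rintro z (rfl | rfl) <;> simp
    refine ⟨fun z => if hz : z ∈ ({x, y} : Finset X) then h ⟨z, hz⟩ else 0, ?_, ?_, ?_⟩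
    · intro hxy
      beta_reduce at hxy
      rw [dif_pos (hmem x (Or.inl rfl)), dif_pos (hmem y (Or.inr rfl))] at hxy
      exact congrArg Subtype.val (hh.1 hxy)
    · intro z hz j
      beta_reduce
      rw [dif_pos (hmem z hz)]
      exact hh.2 (some j) fun _ => ⟨z, hmem z hz⟩
    · intro t ht
      beta_reduce
      rw [dif_pos (hmem _ (ht false)), dif_pos (hmem _ (ht true))]
      exact hh.2 none fun b => ⟨t b, hmem _ (ht b)⟩
  have h3 : ∀ x y : X, ∀ e : X → Fin 3,
      (∀ z, (z = x ∨ z = y) → ∀ j, C (some j) (fun _ => z) ↔ e z = j) →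
      ∀ z, (z = x ∨ z = y) → e z = i z := by
    intro x y e he z hz
    exact (hi z (e z)).1 ((he z hz (e z)).2 rfl)
  refine ⟨i, ?_, ?_⟩
  · intro x y hxy
    obtain ⟨e, h4, h5, _⟩ := h2 x y
    apply h4
    rw [h3 x y e h5 x (Or.inl rfl), h3 x y e h5 y (Or.inr rfl), hxy]
  · intro s
    cases s with
    | none =>
      intro (t : Bool → X)
      obtain ⟨e, _, h5, h6⟩ := h2 (t false) (t true)
      have h7 := h6 t (fun b => by cases b <;> simp)
      rw [h3 _ _ e h5 _ (Or.inl rfl), h3 _ _ e h5 _ (Or.inr rfl)] at h7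
      exact h7
    | some j =>
      intro (t : Unit → X)
      exact (hi (t ()) j).trans eq_comm

theorem K3_isReduct : IsReduct K3 K3n :=
  ⟨fun _ => none, fun _ => Equiv.refl _, fun _ _ _ => rfl, fun _ _ => Iff.rfl⟩

theorem K3_aut (β : Fin 3 ≃ Fin 3) : IsAut K3 β := fun _ t =>
  (not_congr (β.injective.eq_iff (a := t false) (b := t true))).symm

theorem K3_core : ModelCompleteCore K3 := by
  intro e he n a
  have hinj : Function.Injective e := by
    intro x y hxy
    by_contra hne
    exact he () (fun b => if b then y else x) hne hxy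
  let g : Fin 3 ≃ Fin 3 := Equiv.ofBijective e (Finite.injective_iff_bijective.1 hinj)
  exact ⟨g, K3_aut g, rfl⟩

theorem K3_ppK3 : PPConstructs K3 K3 := by
  rw [ppK3_iff]
  refine ⟨Unit, inferInstance, Fin 2, inferInstance, fun _ t => t false = 0 ∧ t true = 1,
    fun _ => 0, fun _ => 1, ⟨fun i _ => i, fun i j hij => ⟨![i, j], ?_, rfl, rfl⟩⟩,
    fun a => a (), fun h hh => ?_⟩
  · rintro _ t ⟨h1, h2⟩
    change ![i, j] (t false) ≠ ![i, j] (t true)
    rw [h1, h2]
    exact hij
  · exact hh () (fun b => if b then 1 else 0) ⟨rfl, rfl⟩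

section
variable {V : Type} {k : ℕ}

/-- pp-definable relations are preserved by automorphisms -/
theorem PPDef.aut {σ : Sig} {M ι : Type} {A : Str σ M} {R : (ι → M) → Prop} (hR : PPDef A R)
    {g : M ≃ M} (hg : IsAut A g) {a : ι → M} (ha : R a) : R (g ∘ a) := by
  obtain ⟨X, _, C, x, hx⟩ := hR
  obtain ⟨h, h1, h2⟩ := (hx a).1 ha
  refine (hx _).2 ⟨g ∘ h, fun s t ht => (hg s _).1 (h1 s t ht), ?_⟩
  rw [← h2]
  rfl

/-- pp-definable relations of small arity are preserved by all injections -/
theorem ppDef_inj [Countable V] {σ : Sig} {M : Type} {A : Str σ M} {c : (Fin (k + 1) → V) → M}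
    (hc : Ext c) {ι : Type} [Finite ι] (hι : Nat.card ι ≤ k) {R : (ι → V) → Prop}
    (hR : PPDef (blowStr A c) R) {a : ι → V} {f : V → V} (hf : Set.InjOn f (Set.range a))
    (ha : R a) : R (f ∘ a) := by
  classical
  have := Fintype.ofFinite ι
  obtain ⟨g, h1, h2⟩ := extend_blow (B := A) hc (isAut_refl A) (Finset.univ.image a) f (by
      intro x hx y hy h
      refine hf ?_ ?_ h
      · obtain ⟨i, _, rfl⟩ := Finset.mem_image.1 (Finset.mem_coe.1 hx)
        exact ⟨i, rfl⟩
      · obtain ⟨i, _, rfl⟩ := Finset.mem_image.1 (Finset.mem_coe.1 hy)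
        exact ⟨i, rfl⟩) (by
      intro t ht hinj
      exfalso
      have h3 : (Finset.univ.image t).card = k + 1 := by
        rw [Finset.card_image_of_injective _ hinj, Finset.card_fin]
      have h4 : Finset.univ.image t ⊆ Finset.univ.image a := by
        intro x hx
        obtain ⟨i, _, rfl⟩ := Finset.mem_image.1 hx
        exact ht i
      have h5 := Finset.card_le_card h4
      have h6 : (Finset.univ.image a).card ≤ k := by
        refine Finset.card_image_le.trans ?_
        rw [Finset.card_univ, ← Nat.card_eq_fintype_card]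
        exact hι
      omega)
  have h3 : g ∘ a = f ∘ a := by
    funext i
    exact h2 _ (Finset.mem_image_of_mem a (Finset.mem_univ i))
  rw [← h3]
  exact hR.aut h1 ha

/-- the injective polymorphisms -/
theorem exists_poly [Countable V] {σ : Sig} {M : Type} (A : Str σ M) {c : (Fin (k + 1) → V) → M}
    (hc : Ext c) (I : Type) [Finite I] [Nonempty I] (P : Finset V) :
    ∃ f : (I → V) → V, Function.Injective f ∧ (∀ p ∈ P, f (fun _ => p) = p) ∧
      ∀ s (w : I → (blow σ k).Ar s → V), (∀ i, blowStr A c s (w i)) →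
        blowStr A c s fun z => f fun i => w i z := by
  classical
  obtain ⟨i0⟩ := ‹Nonempty I›
  obtain ⟨f, h1, h2, h3⟩ := embed_all (Q := I → V) (d := fun q => c fun l => q l i0) hc
    (P.image fun p => (fun _ => p, p)) (by
      refine ⟨fun a ha b hb => ?_, fun t ht hinj => ?_⟩
      · obtain ⟨x, hx, rfl⟩ := Finset.mem_image.1 ha
        obtain ⟨y, hy, rfl⟩ := Finset.mem_image.1 hb
        exact ⟨fun h => congrFun h i0, fun h => by funext i; exact h⟩
      · congr 1
        funext l
        obtain ⟨x, hx, h⟩ := Finset.mem_image.1 (ht l)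
        change (t l).2 = (t l).1 i0
        rw [← h])
  refine ⟨f, h1, fun p hp => h3 (fun _ => p, p) (Finset.mem_image.2 ⟨p, hp, rfl⟩), ?_⟩
  have hblock : ∀ {κ : Type} (w : I → κ × Fin (k + 1) → V) (b : κ),
      (Function.Injective fun j => w i0 (b, j)) →
      Function.Injective (fun j => fun i => w i (b, j)) := by
    intro κ w b hw j j' h
    exact hw (congrFun h i0)
  intro s
  cases s with
  | none =>
    intro (w : I → Bool × Fin (k + 1) → V) hw
    have h4 : eqRel c (w i0) := hw i0
    change eqRel c fun z => f fun i => w i z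
    refine ⟨fun b => h1.comp (hblock w b (h4.1 b)), ?_⟩
    have e1 := h2 _ (hblock w false (h4.1 false))
    have e2 := h2 _ (hblock w true (h4.1 true))
    change c (f ∘ fun j => fun i => w i (false, j)) = c (f ∘ fun j => fun i => w i (true, j))
    rw [e1, e2]
    exact h4.2
  | some s =>
    intro (w : I → σ.Ar s × Fin (k + 1) → V) hw
    have h4 : upRel (A s) c (w i0) := hw i0
    change upRel (A s) c fun z => f fun i => w i z
    refine ⟨fun b => h1.comp (hblock w b (h4.1 b)), ?_⟩
    have e1 : (fun b => c fun j => f fun i => w i (b, j)) = fun b => c fun j => w i0 (b, j) := by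
      funext b
      exact h2 _ (hblock w b (h4.1 b))
    rw [e1]
    exact h4.2

/-- pp-definable relations are preserved by polymorphisms -/
theorem PPDef.poly {σ : Sig} {M ι I : Type} {A : Str σ M} {R : (ι → M) → Prop} (hR : PPDef A R)
    {f : (I → M) → M}
    (hf : ∀ s (w : I → σ.Ar s → M), (∀ i, A s (w i)) → A s fun z => f fun i => w i z)
    {a : I → ι → M} (ha : ∀ i, R (a i)) : R fun z => f fun i => a i z := by
  obtain ⟨X, _, C, x, hx⟩ := hR
  choose h h1 h2 using fun i => (hx (a i)).1 (ha i)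
  refine (hx _).2 ⟨fun z => f fun i => h i z, fun s t ht => ?_, ?_⟩
  · exact hf s (fun i => h i ∘ t) fun i => h1 i s t ht
  · funext z
    change f (fun i => h i (x z)) = f fun i => a i z
    congr 1
    funext i
    exact congrFun (h2 i) z

/-- relations of small arity do not pp-construct the triangle -/
theorem small_arity {σ : Sig} {M : Type} (A : Str σ M) {c : (Fin (k + 1) → ℕ) → M} (hc : Ext c)
    {m : ℕ} (hk : m + m ≤ k) {ρ : Sig} (C : Str ρ ℕ) (p : Fin m → ℕ)
    (hC : ∀ s, Nat.card (ρ.Ar s) ≤ m ∧ PPDefPar (blowStr A c) p (C s)) :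
    ¬ PPConstructs C K3 := by
  classical
  intro hpp
  rw [ppK3_iff] at hpp
  obtain ⟨ι, hι, X, hX, D, u, v, ⟨a, ha⟩, g, hg⟩ := hpp
  have := Fintype.ofFinite X
  choose hf hf1 hf2 hf3 using ha
  let Idx := {q : Fin 3 × Fin 3 // q.1 ≠ q.2}
  have hne : Nonempty Idx := ⟨⟨(0, 1), by decide⟩⟩
  obtain ⟨f, f1, f2, f3⟩ := exists_poly A hc Idx (Finset.univ.image p)
  let H : Idx → X → ℕ := fun q x => hf q.1.1 q.1.2 q.2 x
  let h : X → ℕ := fun x => f fun q => H q x
  have hker : ∀ x y, h x = h y ↔ ∀ i j, ∀ hij : i ≠ j, hf i j hij x = hf i j hij y := by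
    intro x y
    constructor
    · intro he i j hij
      exact congrFun (f1 he) ⟨(i, j), hij⟩
    · intro he
      change f _ = f _
      congr 1
      funext ⟨⟨i, j⟩, hij⟩
      exact he i j hij
  have hu : ∀ i j, ∀ hij : i ≠ j, ∀ q, hf i j hij (u q) = a i q := fun i j hij q =>
    congrFun (hf2 i j hij) q
  have hv : ∀ i j, ∀ hij : i ≠ j, ∀ q, hf i j hij (v q) = a j q := fun i j hij q =>
    congrFun (hf3 i j hij) q
  -- injections that fix the parameters preserve the relations of `C`
  have hinv : ∀ s (t : ρ.Ar s → ℕ) (ζ : ℕ → ℕ), Set.InjOn ζ (Set.range t ∪ Set.range p) →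
      (∀ l, ζ (p l) = p l) → C s t → C s (ζ ∘ t) := by
    intro s t ζ hζ hζp hst
    obtain ⟨h1, S, hS, hCS⟩ := hC s
    have := ρ.finAr s
    rw [hCS] at hst ⊢
    have h2 : Sum.elim (ζ ∘ t) p = ζ ∘ Sum.elim t p := by
      funext z
      rcases z with z | z
      · rfl
      · exact (hζp z).symm
    rw [h2]
    refine ppDef_inj hc (by rw [Nat.card_sum, Nat.card_fin]; omega) hS ?_ hst
    rw [Set.Sum.elim_range]
    exact hζ
  -- the product homomorphism
  have hh : IsHom D C h := by
    intro s t ht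
    obtain ⟨_, S, hS, hCS⟩ := hC s
    have h1 : ∀ q : Idx, S (Sum.elim (H q ∘ t) p) := fun q =>
      (hCS _).1 (hf1 q.1.1 q.1.2 q.2 s t ht)
    have h2 := hS.poly f3 h1
    rw [hCS]
    have h3 : (fun z => f fun q => Sum.elim (H q ∘ t) p z) = Sum.elim (h ∘ t) p := by
      funext z
      rcases z with z | z
      · rfl
      · exact f2 _ (Finset.mem_image_of_mem p (Finset.mem_univ z))
    rw [← h3]
    exact h2
  have hother : ∀ i : Fin 3, ∃ j, i ≠ j := by decide
  have hother' : ∀ i : Fin 3, ∃ j, j ≠ i := by decide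
  have hthird : ∀ i j : Fin 3, ∃ l, i ≠ l ∧ j ≠ l := by decide
  have huu : ∀ q r, h (u q) = h (u r) ↔ ∀ i, a i q = a i r := by
    intro q r
    rw [hker]
    constructor
    · intro he i
      obtain ⟨j, hij⟩ := hother i
      rw [← hu i j hij, ← hu i j hij, he]
    · intro he i j hij
      rw [hu, hu, he]
  have hvv : ∀ q r, h (v q) = h (v r) ↔ ∀ i, a i q = a i r := by
    intro q r
    rw [hker]
    constructor
    · intro he i
      obtain ⟨j, hij⟩ := hother' i
      rw [← hv j i hij, ← hv j i hij, he]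
    · intro he i j hij
      rw [hv, hv, he]
  have hpos : Pos (h ∘ u) (h ∘ v) := by
    refine ⟨fun q r => (huu q r).trans (hvv q r).symm, fun q r he => ?_⟩
    change h (u q) = h (v r) at he
    rw [hker] at he
    have h1 : ∀ i j, i ≠ j → a i q = a j r := by
      intro i j hij
      rw [← hu i j hij, ← hv i j hij, he]
    have h2 : ∀ i j, a i q = a j q := by
      intro i j
      obtain ⟨l, h3, h4⟩ := hthird i j
      rw [h1 i l h3, h1 j l h4]
    have h3 : ∀ i j, a i r = a j r := by
      intro i j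
      obtain ⟨l, h4, h5⟩ := hthird i j
      rw [← h1 l i h4.symm, ← h1 l j h5.symm]
    constructor
    · change h (u q) = h (v q)
      rw [hker]
      intro i j hij
      rw [hu, hv, h2]
    · change h (u r) = h (v r)
      rw [hker]
      intro i j hij
      rw [hu, hv, h3]
  -- parameters are constant
  have hpar : ∀ q l, h (u q) = p l → h (u q) = h (v q) := by
    intro q l he
    have h1 : h (u q) = f fun _ => p l := by
      rw [he]
      exact (f2 _ (Finset.mem_image_of_mem p (Finset.mem_univ l))).symm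
    have h2 : ∀ i j, ∀ hij : i ≠ j, hf i j hij (u q) = p l := fun i j hij =>
      congrFun (f1 h1) ⟨(i, j), hij⟩
    have h3 : ∀ i, a i q = p l := by
      intro i
      obtain ⟨j, hij⟩ := hother i
      rw [← hu i j hij, h2]
    rw [hker]
    intro i j hij
    rw [hu, hv, h3, h3]
  have hpar' : ∀ q l, h (v q) = p l → h (u q) = h (v q) := by
    intro q l he
    have h1 : h (v q) = f fun _ => p l := by
      rw [he]
      exact (f2 _ (Finset.mem_image_of_mem p (Finset.mem_univ l))).symm
    have h2 : ∀ i j, ∀ hij : i ≠ j, hf i j hij (v q) = p l := fun i j hij =>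
      congrFun (f1 h1) ⟨(i, j), hij⟩
    have h3 : ∀ i, a i q = p l := by
      intro i
      obtain ⟨j, hij⟩ := hother' i
      rw [← hv j i hij, h2]
    rw [hker]
    intro i j hij
    rw [hu, hv, h3, h3]
  -- fresh points
  let N : ℕ := (Finset.univ.image h).sup id + (Finset.univ.image p).sup id
  have hN1 : ∀ x, h x ≤ N := fun x =>
    (Finset.le_sup (f := id) (Finset.mem_image_of_mem h (Finset.mem_univ x))).trans
      (Nat.le_add_right _ _)
  have hN2 : ∀ l, p l ≤ N := fun l =>
    (Finset.le_sup (f := id) (Finset.mem_image_of_mem p (Finset.mem_univ l))).trans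
      (Nat.le_add_left _ _)
  let z : Fin 4 → ℕ → ℕ := fun i w => N + 1 + (4 * w + i)
  have hz : ∀ i i' w w', z i w = z i' w' → i = i' ∧ w = w' := by
    intro i i' w w' he
    have h1 : N + 1 + (4 * w + i.1) = N + 1 + (4 * w' + i'.1) := he
    have h2 := i.2
    have h3 := i'.2
    exact ⟨Fin.ext (by omega), by omega⟩
  have hz' : ∀ i w w', w' ≤ N → z i w ≠ w' := by
    intro i w w' hw he
    have h1 : N + 1 + (4 * w + i.1) = w' := he
    omega
  let ζ : Fin 4 → Fin 4 → ℕ → ℕ := fun i i' w =>
    if ∃ q, h (u q) = w ∧ h (u q) ≠ h (v q) then z i w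
    else if hq : ∃ q, h (v q) = w ∧ h (u q) ≠ h (v q) then z i' (h (u hq.choose))
    else w
  let b : Fin 4 → ι → ℕ := fun i q => if h (u q) = h (v q) then h (u q) else z i (h (u q))
  have hζu : ∀ i i' q, ζ i i' (h (u q)) = b i q := by
    intro i i' q
    by_cases hq : h (u q) = h (v q)
    · have h1 : ¬ ∃ r, h (u r) = h (u q) ∧ h (u r) ≠ h (v r) := by
        rintro ⟨r, h2, h3⟩
        apply h3
        have e : h (v r) = h (v q) := (hpos.same r q).1 h2
        rw [h2, e]
        exact hq
      have h2 : ¬ ∃ r, h (v r) = h (u q) ∧ h (u r) ≠ h (v r) := by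
        rintro ⟨r, h2, h3⟩
        exact h3 (hpos.cst q r h2.symm).2
      change (if _ then _ else _) = _
      rw [if_neg h1, dif_neg h2]
      exact (if_pos hq).symm
    · have h1 : ∃ r, h (u r) = h (u q) ∧ h (u r) ≠ h (v r) := ⟨q, rfl, hq⟩
      change (if _ then _ else _) = _
      rw [if_pos h1]
      exact (if_neg hq).symm
  have hζv : ∀ i i' q, ζ i i' (h (v q)) = b i' q := by
    intro i i' q
    by_cases hq : h (u q) = h (v q)
    · have h1 := hζu i i' q
      rw [← hq, h1]
      change (if _ then _ else _) = if _ then _ else _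
      rw [if_pos hq, if_pos hq]
    · have h1 : ¬ ∃ r, h (u r) = h (v q) ∧ h (u r) ≠ h (v r) := by
        rintro ⟨r, h2, h3⟩
        exact h3 (hpos.cst r q h2).1
      have h2 : ∃ r, h (v r) = h (v q) ∧ h (u r) ≠ h (v r) := ⟨q, rfl, hq⟩
      change (if _ then _ else _) = _
      rw [if_neg h1, dif_pos h2]
      have h3 : h (u h2.choose) = h (u q) := (hpos.same _ _).2 h2.choose_spec.1
      rw [h3]
      exact (if_neg hq).symm
  have hζw : ∀ i i' w, (∀ q, h (u q) = w → h (u q) = h (v q)) →
      (∀ q, h (v q) = w → h (u q) = h (v q)) → ζ i i' w = w := by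
    intro i i' w h1 h2
    have h3 : ¬ ∃ q, h (u q) = w ∧ h (u q) ≠ h (v q) := by
      rintro ⟨q, h4, h5⟩
      exact h5 (h1 q h4)
    have h4 : ¬ ∃ q, h (v q) = w ∧ h (u q) ≠ h (v q) := by
      rintro ⟨q, h4, h5⟩
      exact h5 (h2 q h4)
    change (if _ then _ else _) = _
    rw [if_neg h3, dif_neg h4]
  have hζp : ∀ i i' l, ζ i i' (p l) = p l := fun i i' l =>
    hζw i i' _ (fun q => hpar q l) fun q => hpar' q l
  have hclass : ∀ i i' w, w ≤ N → (∃ q, w = h (u q) ∧ h (u q) ≠ h (v q) ∧ ζ i i' w = z i w) ∨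
      (∃ q, w = h (v q) ∧ h (u q) ≠ h (v q) ∧ ζ i i' w = z i' (h (u q))) ∨ ζ i i' w = w := by
    intro i i' w hw
    by_cases h1 : ∃ q, h (u q) = w ∧ h (u q) ≠ h (v q)
    · obtain ⟨q, rfl, h2⟩ := h1
      refine Or.inl ⟨q, rfl, h2, ?_⟩
      rw [hζu]
      exact if_neg h2
    · by_cases h2 : ∃ q, h (v q) = w ∧ h (u q) ≠ h (v q)
      · obtain ⟨q, rfl, h3⟩ := h2
        refine Or.inr (Or.inl ⟨q, rfl, h3, ?_⟩)
        rw [hζv]
        exact if_neg h3
      · refine Or.inr (Or.inr (hζw i i' w ?_ ?_))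
        · intro q hq
          by_contra h3
          exact h1 ⟨q, hq, h3⟩
        · intro q hq
          by_contra h3
          exact h2 ⟨q, hq, h3⟩
  have hζinj : ∀ i i', i ≠ i' → ∀ w w', w ≤ N → w' ≤ N → ζ i i' w = ζ i i' w' → w = w' := by
    intro i i' hii w w' hw hw' he
    rcases hclass i i' w hw with ⟨q, h1, h2, h3⟩ | ⟨q, h1, h2, h3⟩ | h3 <;>
      rcases hclass i i' w' hw' with ⟨r, h4, h5, h6⟩ | ⟨r, h4, h5, h6⟩ | h6 <;>
      rw [h3, h6] at he
    · exact (hz _ _ _ _ he).2
    · exact absurd (hz _ _ _ _ he).1 hii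
    · exact absurd he (hz' _ _ _ hw')
    · exact absurd (hz _ _ _ _ he).1.symm hii
    · rw [h1, h4]
      exact (hpos.same q r).1 (hz _ _ _ _ he).2
    · exact absurd he (hz' _ _ _ hw')
    · exact absurd he.symm (hz' _ _ _ hw)
    · exact absurd he.symm (hz' _ _ _ hw)
    · exact he
  -- four pairwise adjacent vertices
  have hadj : ∀ i i' : Fin 4, i ≠ i' → g (b i) ≠ g (b i') := by
    intro i i' hii
    have h1 : IsHom D C (ζ i i' ∘ h) := by
      intro s t ht
      refine hinv s (h ∘ t) (ζ i i') ?_ (hζp i i') (hh s t ht)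
      have h2 : ∀ w, w ∈ Set.range (h ∘ t) ∪ Set.range p → w ≤ N := by
        rintro w (⟨y, rfl⟩ | ⟨l, rfl⟩)
        · exact hN1 _
        · exact hN2 l
      intro w hw w' hw' he
      exact hζinj i i' hii w w' (h2 w hw) (h2 w' hw') he
    have h2 := hg _ h1
    have h3 : (ζ i i' ∘ h) ∘ u = b i := by
      funext q
      exact hζu i i' q
    have h4 : (ζ i i' ∘ h) ∘ v = b i' := by
      funext q
      exact hζv i i' q
    rwa [h3, h4] at h2
  have hcard : Fintype.card (Fin 4) ≤ Fintype.card (Fin 3) :=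
    Fintype.card_le_of_injective (fun i => g (b i)) fun i i' he => by
      by_contra hii
      exact hadj i i' hii he
  simp at hcard

end

end Pool.Agent.H69.BP
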