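import Pool.Agent.H69.BP.Gen

/-!
# The blow-up of a structure along a generic colouring
-/

set_option autoImplicit false

namespace Pool.Agent.H69.BP

/-- the positions of the symbols of the blow-up -/
@[reducible] def blowAr (σ : Sig) (k : ℕ) : Option σ.Sym → Type
  | none => Bool × Fin (k + 1)
  | some s => σ.Ar s × Fin (k + 1)

/-- the signature of the blow-up: every position is replaced by `k + 1` positions, and there is one
additional symbol for the equality of colours -/
@[reducible] def blow (σ : Sig) (k : ℕ) : Sig where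
  Sym := Option σ.Sym
  Ar := blowAr σ k
  finSym := by
    have := σ.finSym
    infer_instance
  finAr := by
    intro s
    cases s with
    | none => exact (inferInstance : Finite (Bool × Fin (k + 1)))
    | some s =>
      have := σ.finAr s
      exact (inferInstance : Finite (σ.Ar s × Fin (k + 1)))

section
variable {σ τ : Sig} {M N V : Type} {k : ℕ}

/-- the tuples are injective and have the same colour -/
def eqRel (c : (Fin (k + 1) → V) → M) (u : Bool × Fin (k + 1) → V) : Prop :=
  (∀ b, Function.Injective fun j => u (b, j)) ∧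
    c (fun j => u (false, j)) = c (fun j => u (true, j))

/-- the tuples are injective and their colours satisfy the relation `R` -/
def upRel {ι : Type} (R : (ι → M) → Prop) (c : (Fin (k + 1) → V) → M)
    (u : ι × Fin (k + 1) → V) : Prop :=
  (∀ i, Function.Injective fun j => u (i, j)) ∧ R fun i => c fun j => u (i, j)

/-- The blow-up of `B` along the colouring `c` of the `(k + 1)`-tuples: the relations of `B`, read
as relations between the colours of injective tuples, and the equality of colours. -/
def blowStr (B : Str σ M) (c : (Fin (k + 1) → V) → M) : Str (blow σ k) V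
  | none => eqRel c
  | some s => upRel (B s) c

/-- a pair of tuples -/
def pair {X : Type} (t t' : Fin (k + 1) → X) : Bool × Fin (k + 1) → X :=
  fun p => if p.1 then t' p.2 else t p.2

theorem comp_pair {X Y : Type} (f : X → Y) (t t' : Fin (k + 1) → X) :
    f ∘ pair t t' = pair (f ∘ t) (f ∘ t') := by
  funext ⟨b, j⟩
  cases b <;> rfl

theorem eqRel_pair {c : (Fin (k + 1) → V) → M} {t t' : Fin (k + 1) → V} :
    eqRel c (pair t t') ↔ Function.Injective t ∧ Function.Injective t' ∧ c t = c t' := by
  constructor
  · rintro ⟨h1, h2⟩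
    exact ⟨h1 false, h1 true, h2⟩
  · rintro ⟨h1, h2, h3⟩
    refine ⟨fun b => ?_, h3⟩
    cases b
    · exact h1
    · exact h2

theorem eqRel_comp {c : (Fin (k + 1) → V) → M} {α : M ≃ M} {g : V ≃ V}
    (hg : ∀ t, Function.Injective t → c (g ∘ t) = α (c t)) (t : Bool × Fin (k + 1) → V) :
    eqRel c t ↔ eqRel c (g ∘ t) := by
  have h0 : (∀ b, Function.Injective fun j => t (b, j)) ↔
      ∀ b, Function.Injective fun j => (g ∘ t) (b, j) := forall_congr' fun b =>
    (g.injective.of_comp_iff (fun j => t (b, j))).symm
  unfold eqRel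
  rw [← h0]
  refine and_congr_right fun h1 => ?_
  have e1 := hg _ (h1 false)
  have e2 := hg _ (h1 true)
  change _ ↔ c (g ∘ fun j => t (false, j)) = c (g ∘ fun j => t (true, j))
  rw [e1, e2]
  exact α.injective.eq_iff.symm

theorem upRel_comp {ι : Type} {R : (ι → M) → Prop} {c : (Fin (k + 1) → V) → M} {α : M ≃ M}
    {g : V ≃ V} (hg : ∀ t, Function.Injective t → c (g ∘ t) = α (c t))
    (hR : ∀ t, R t ↔ R (α ∘ t)) (t : ι × Fin (k + 1) → V) :
    upRel R c t ↔ upRel R c (g ∘ t) := by
  have h0 : (∀ i, Function.Injective fun j => t (i, j)) ↔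
      ∀ i, Function.Injective fun j => (g ∘ t) (i, j) := forall_congr' fun b =>
    (g.injective.of_comp_iff (fun j => t (b, j))).symm
  unfold upRel
  rw [← h0]
  refine and_congr_right fun h1 => ?_
  have e : (fun i => c fun j => (g ∘ t) (i, j)) = α ∘ fun i => c fun j => t (i, j) := by
    funext i
    exact hg _ (h1 i)
  rw [e]
  exact hR _

/-- maps that transform the colours by an automorphism are automorphisms -/
theorem isAut_blow {B : Str σ M} {c : (Fin (k + 1) → V) → M} {α : M ≃ M} (hα : IsAut B α)
    {g : V ≃ V} (hg : ∀ t, Function.Injective t → c (g ∘ t) = α (c t)) :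
    IsAut (blowStr B c) g
  | none => eqRel_comp hg
  | some s => upRel_comp hg (hα s)

theorem Ext.comp {c : (Fin (k + 1) → V) → M} (hc : Ext c) (α : M ≃ M) :
    Ext fun t => α (c t) := by
  intro W φ
  obtain ⟨v, h1, h2⟩ := hc W fun t => α.symm (φ t)
  refine ⟨v, h1, fun t h3 h4 h5 => ?_⟩
  change α (c fun i => (t i).getD v) = φ t
  rw [h2 t h3 h4 h5, Equiv.apply_symm_apply]

/-- partial isomorphisms of the blow-up that transform the colours by `α` extend -/
theorem extend_blow [Countable V] {B : Str σ M} {c : (Fin (k + 1) → V) → M} (hc : Ext c)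
    {α : M ≃ M} (hα : IsAut B α) (S : Finset V) (f : V → V) (hf : Set.InjOn f S)
    (hcol : ∀ t : Fin (k + 1) → V, (∀ i, t i ∈ S) → Function.Injective t →
      c (f ∘ t) = α (c t)) : ∃ g, IsAut (blowStr B c) g ∧ ∀ x ∈ S, g x = f x := by
  classical
  have hgood : Good (fun t => α (c t)) c (S.image fun x => (x, f x)) := by
    refine ⟨fun a ha b hb => ?_, fun t ht hinj => ?_⟩
    · obtain ⟨x, hx, rfl⟩ := Finset.mem_image.1 ha
      obtain ⟨y, hy, rfl⟩ := Finset.mem_image.1 hb
      exact ⟨fun h => congrArg f h, fun h => hf hx hy h⟩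
    · have h1 : ∀ i, (t i).1 ∈ S ∧ f (t i).1 = (t i).2 := by
        intro i
        obtain ⟨x, hx, h⟩ := Finset.mem_image.1 (ht i)
        rw [← h]
        exact ⟨hx, rfl⟩
      have h2 : (fun i => (t i).2) = f ∘ fun i => (t i).1 := by
        funext i
        exact (h1 i).2.symm
      rw [h2]
      exact hcol _ (fun i => (h1 i).1) hinj
  obtain ⟨g, h1, h2⟩ := iso_all (hc.comp α) hc _ hgood
  exact ⟨g, isAut_blow hα h1, fun x hx => h2 (x, f x) (Finset.mem_image.2 ⟨x, hx, rfl⟩)⟩

theorem isAut_refl (B : Str σ M) : IsAut B (Equiv.refl M) := fun _ _ => Iff.rfl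

theorem blow_homogeneous [Countable V] {B : Str σ M} (hB : Homogeneous B)
    {c : (Fin (k + 1) → V) → M} (hc : Ext c) : Homogeneous (blowStr B c) := by
  classical
  intro S f hf hpres
  -- tuples with entries in `S`
  let T : Finset (Fin (k + 1) → V) :=
    (Fintype.piFinset fun _ => S).filter fun t => Function.Injective t
  have hT : ∀ t, t ∈ T ↔ (∀ i, t i ∈ S) ∧ Function.Injective t := by
    intro t
    simp [T, Fintype.mem_piFinset]
  have hfi : ∀ t ∈ T, Function.Injective (f ∘ t) := by
    intro t ht i j hij
    obtain ⟨h1, h2⟩ := (hT t).1 ht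
    exact h2 (hf (h1 i) (h1 j) hij)
  have hE : ∀ t ∈ T, ∀ t' ∈ T, (c t = c t' ↔ c (f ∘ t) = c (f ∘ t')) := by
    intro t ht t' ht'
    obtain ⟨h1, h2⟩ := (hT t).1 ht
    obtain ⟨h1', h2'⟩ := (hT t').1 ht'
    have h3 : eqRel c (pair t t') ↔ eqRel c (f ∘ pair t t') := hpres none (pair t t') (by
      rintro ⟨b, j⟩
      cases b
      · exact h1 j
      · exact h1' j)
    rw [comp_pair, eqRel_pair, eqRel_pair] at h3
    constructor
    · intro h
      exact (h3.1 ⟨h2, h2', h⟩).2.2
    · intro h
      exact (h3.2 ⟨hfi t ht, hfi t' ht', h⟩).2.2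
  have hrep : ∀ m : M, ∃ t : Fin (k + 1) → V, m ∈ T.image c → t ∈ T ∧ c t = m := by
    intro m
    by_cases h : m ∈ T.image c
    · obtain ⟨t, h1, h2⟩ := Finset.mem_image.1 h
      exact ⟨t, fun _ => ⟨h1, h2⟩⟩
    · by_cases hV : Nonempty V
      · exact ⟨fun _ => hV.some, fun h' => absurd h' h⟩
      · exfalso
        obtain ⟨v, _, _⟩ := hc ∅ fun _ => m
        exact hV ⟨v⟩
  choose r hr using hrep
  have hρ : ∀ t ∈ T, c (f ∘ r (c t)) = c (f ∘ t) := by
    intro t ht
    have h1 := hr (c t) (Finset.mem_image_of_mem c ht)
    exact (hE _ h1.1 _ ht).1 h1.2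
  obtain ⟨α, hα, hα2⟩ := hB (T.image c) (fun m => c (f ∘ r m)) (by
      intro m hm m' hm' h
      obtain ⟨h1, h2⟩ := hr m hm
      obtain ⟨h1', h2'⟩ := hr m' hm'
      rw [← h2, ← h2']
      exact (hE _ h1 _ h1').2 h) (by
      intro s t ht
      have h1 : ∀ i, r (t i) ∈ T ∧ c (r (t i)) = t i := fun i => hr (t i) (ht i)
      have h2 : upRel (B s) c (fun p => r (t p.1) p.2) ↔
          upRel (B s) c (f ∘ fun p => r (t p.1) p.2) :=
        hpres (some s) (fun p => r (t p.1) p.2) (fun p => ((hT _).1 (h1 p.1).1).1 p.2)
      have h3 : upRel (B s) c (fun p => r (t p.1) p.2) ↔ B s t := by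
        have h4 : (fun i => c fun j => r (t i) j) = t := by
          funext i
          exact (h1 i).2
        constructor
        · rintro ⟨_, h⟩
          exact h4 ▸ h
        · intro h
          refine ⟨fun i => ((hT _).1 (h1 i).1).2, ?_⟩
          change B s fun i => c fun j => r (t i) j
          rw [h4]
          exact h
      have h5 : upRel (B s) c (f ∘ fun p => r (t p.1) p.2) ↔
          B s fun i => c (f ∘ r (t i)) := by
        constructor
        · rintro ⟨_, h⟩
          exact h
        · intro h
          exact ⟨fun i => hfi _ (h1 i).1, h⟩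
      rw [← h3, h2, h5]
      exact Iff.rfl)
  refine extend_blow hc hα S f hf fun t ht hinj => ?_
  have h1 : t ∈ T := (hT t).2 ⟨ht, hinj⟩
  rw [hα2 _ (Finset.mem_image_of_mem c h1), hρ t h1]

/-- the blow-up is `k`-transitive -/
theorem blow_kTransitive [Countable V] (B : Str σ M) {c : (Fin (k + 1) → V) → M} (hc : Ext c) :
    KTransitive k (blowStr B c) := by
  classical
  intro x y hx hy
  rcases isEmpty_or_nonempty (Fin k) with hk | hk
  · exact ⟨Equiv.refl V, isAut_refl _, by funext i; exact isEmptyElim i⟩
  · let f : V → V := y ∘ Function.invFun x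
    have hfx : ∀ i, f (x i) = y i := fun i => by
      change y (Function.invFun x (x i)) = y i
      rw [Function.leftInverse_invFun hx i]
    obtain ⟨g, h1, h2⟩ := extend_blow (B := B) hc (isAut_refl B) (Finset.univ.image x) f (by
        intro a ha b hb hab
        obtain ⟨i, _, rfl⟩ := Finset.mem_image.1 (Finset.mem_coe.1 ha)
        obtain ⟨j, _, rfl⟩ := Finset.mem_image.1 (Finset.mem_coe.1 hb)
        rw [hfx, hfx] at hab
        rw [hy hab]) (by
        intro t ht hinj
        exfalso
        have h3 : (Finset.univ.image t).card = k + 1 := by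
          rw [Finset.card_image_of_injective _ hinj, Finset.card_fin]
        have h4 : Finset.univ.image t ⊆ Finset.univ.image x := by
          intro a ha
          obtain ⟨i, _, rfl⟩ := Finset.mem_image.1 ha
          exact ht i
        have h5 := Finset.card_le_card h4
        have h6 : (Finset.univ.image x).card ≤ k := by
          refine Finset.card_image_le.trans ?_
          rw [Finset.card_fin]
        omega)
    refine ⟨g, h1, ?_⟩
    funext i
    change g (x i) = y i
    rw [h2 _ (Finset.mem_image_of_mem _ (Finset.mem_univ i)), hfx]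

/-- there are infinitely many extensions -/
theorem Ext.infinite {c : (Fin (k + 1) → V) → M} (hc : Ext c) (W : Finset V)
    (φ : (Fin (k + 1) → Option V) → M) : {v | v ∉ W ∧ ∀ t : Fin (k + 1) → Option V,
      Function.Injective t → (∀ i x, t i = some x → x ∈ W) → (∃ i, t i = none) →
        c (fun i => (t i).getD v) = φ t}.Infinite := by
  classical
  intro hfin
  obtain ⟨v, h1, h2⟩ := hc (W ∪ hfin.toFinset) φ
  rw [Finset.mem_union, not_or] at h1
  apply h1.2
  rw [Set.Finite.mem_toFinset]
  exact ⟨h1.1, fun t h3 h4 h5 => h2 t h3 (fun i x h => Finset.mem_union_left _ (h4 i x h)) h5⟩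

/-- the blow-up has no algebraicity -/
theorem blow_noAlgebraicity [Countable V] (B : Str σ M) {c : (Fin (k + 1) → V) → M} (hc : Ext c) :
    NoAlgebraicity (blowStr B c) := by
  classical
  intro S v hv
  refine (hc.infinite S fun t => c fun i => (t i).getD v).mono ?_
  rintro w ⟨hw, hw2⟩
  obtain ⟨g, h1, h2⟩ := extend_blow (B := B) hc (isAut_refl B) (insert v S)
    (fun x => if x = v then w else x) (by
      intro a ha b hb hab
      have ha' := Finset.mem_insert.1 (Finset.mem_coe.1 ha)
      have hb' := Finset.mem_insert.1 (Finset.mem_coe.1 hb)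
      by_cases h1 : a = v <;> by_cases h2 : b = v
      · rw [h1, h2]
      · simp only [h1, h2, if_true, if_false] at hab
        exact absurd (hab ▸ hb'.resolve_left h2) hw
      · simp only [h1, h2, if_true, if_false] at hab
        exact absurd (hab ▸ ha'.resolve_left h1) hw
      · simpa [h1, h2] using hab) (by
      intro t ht hinj
      by_cases hall : ∃ i, t i = v
      · set s : Fin (k + 1) → Option V := fun i => if t i = v then none else some (t i) with hs
        have h3 : Function.Injective s := by
          intro i j hij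
          apply hinj
          by_cases h1 : t i = v <;> by_cases h2 : t j = v
          · rw [h1, h2]
          · simp [hs, h1, h2] at hij
          · simp [hs, h1, h2] at hij
          · simpa [hs, h1, h2] using hij
        have h4 : ∀ i x, s i = some x → x ∈ S := by
          intro i x hx
          by_cases h1 : t i = v
          · simp [hs, h1] at hx
          · simp only [hs, h1, if_false, Option.some.injEq] at hx
            rw [← hx]
            exact (Finset.mem_insert.1 (ht i)).resolve_left h1
        have h5 : ∃ i, s i = none := by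
          obtain ⟨i, hi⟩ := hall
          exact ⟨i, by simp [hs, hi]⟩
        have h6 := hw2 s h3 h4 h5
        have h7 : (fun i => (s i).getD w) = (fun x => if x = v then w else x) ∘ t := by
          funext i
          by_cases h1 : t i = v <;> simp [hs, h1]
        have h8 : (fun i => (s i).getD v) = t := by
          funext i
          by_cases h1 : t i = v <;> simp [hs, h1]
        rw [h7, h8] at h6
        exact h6
      · push Not at hall
        have h7 : (fun x => if x = v then w else x) ∘ t = t := by
          funext i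
          simp [hall i]
        rw [h7]
        rfl)
  refine ⟨g, h1, fun x hx => ?_, ?_⟩
  · rw [h2 x (Finset.mem_insert_of_mem hx), if_neg]
    rintro rfl
    exact hv hx
  · rw [h2 v (Finset.mem_insert_self _ _), if_pos rfl]

end

end Pool.Agent.H69.BP
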