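import Pool.Agent.H69.BP.Fb

/-!
# The constraint satisfaction problem of the blow-up
-/

set_option autoImplicit false

namespace Pool.Agent.H69.BP

section
variable {σ : Sig} {M V X : Type} {k : ℕ}

/-- The instance of the blow-up that corresponds to an instance `C` of the structure: every
variable `x` is replaced by the tuple of variables `(x, 0), …, (x, k)`. -/
def upStr (k : ℕ) (C : Str σ X) : Str (blow σ k) (X × Fin (k + 1))
  | none => fun u => ∃ x, u = pair (fun j => (x, j)) fun j => (x, j)
  | some s => fun u => ∃ t, C s t ∧ u = fun p => (t p.1, p.2)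

/-- all tuples that occur in the constraints are injective -/
def Proper (C : Str (blow σ k) X) : Prop :=
  (∀ u : Bool × Fin (k + 1) → X, C none u → ∀ b, Function.Injective fun j => u (b, j)) ∧
    ∀ s (u : σ.Ar s × Fin (k + 1) → X), C (some s) u → ∀ i, Function.Injective fun j => u (i, j)

/-- the tuples of variables, up to the equalities that the constraints impose -/
abbrev Tup (C : Str (blow σ k) X) : Type :=
  Quot fun t t' : Fin (k + 1) → X => C none (pair t t')

/-- The instance of the structure that corresponds to an instance `C` of the blow-up: the variables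
are the `(k + 1)`-tuples of variables, up to the equalities that the constraints impose. -/
def downStr (C : Str (blow σ k) X) : Str σ (Tup C) := fun s q =>
  ∃ u : σ.Ar s × Fin (k + 1) → X, C (some s) u ∧ ∀ i, q i = Quot.mk _ fun j => u (i, j)

theorem Ext.surj {c : (Fin (k + 1) → V) → M} (hc : Ext c) (m : M) :
    ∃ t, Function.Injective t ∧ c t = m := by
  obtain ⟨η, h1, h2⟩ := hc.universal (Q := Fin (k + 1)) fun _ => m
  exact ⟨η, h1, h2 id Function.injective_id⟩

/-- homomorphisms into the blow-up induce homomorphisms into the structure -/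
theorem hom_of_up {A : Str σ M} {c : (Fin (k + 1) → V) → M} {C : Str σ X}
    {h : X × Fin (k + 1) → V} (hh : IsHom (upStr k C) (blowStr A c) h) :
    IsHom C A (fun x => c fun j => h (x, j)) ∧ ∀ x, Function.Injective fun j => h (x, j) := by
  constructor
  · intro s t ht
    exact (hh (some s) (fun p => (t p.1, p.2)) ⟨t, ht, rfl⟩ : upRel _ _ _).2
  · intro x
    exact (hh none (pair (fun j => (x, j)) fun j => (x, j)) ⟨x, rfl⟩ : eqRel _ _).1 true

/-- homomorphisms into the structure lift to the blow-up, with a prescribed section -/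
theorem hom_to_up {A : Str σ M} {c : (Fin (k + 1) → V) → M} {C : Str σ X} {h : X → M}
    (hh : IsHom C A h) (s : M → Fin (k + 1) → V) (hs : ∀ m, Function.Injective (s m) ∧ c (s m) = m) :
    IsHom (upStr k C) (blowStr A c) fun p => s (h p.1) p.2 := by
  intro a
  cases a with
  | none =>
    rintro _ ⟨x, rfl⟩
    change eqRel c _
    rw [comp_pair, eqRel_pair]
    exact ⟨(hs (h x)).1, (hs (h x)).1, rfl⟩
  | some a =>
    rintro _ ⟨t, ht, rfl⟩
    change upRel (A a) c fun p => s (h (t p.1)) p.2
    refine ⟨fun i => (hs (h (t i))).1, ?_⟩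
    have e : (fun i => c fun j => s (h (t i)) j) = h ∘ t := by
      funext i
      exact (hs _).2
    change A a fun i => c fun j => s (h (t i)) j
    rw [e]
    exact hh a t ht

theorem csp_up {A : Str σ M} {c : (Fin (k + 1) → V) → M} (hc : Ext c) (C : Str σ X) :
    (∃ h, IsHom C A h) ↔ ∃ h, IsHom (upStr k C) (blowStr A c) h := by
  constructor
  · rintro ⟨h, hh⟩
    choose s hs using hc.surj
    exact ⟨_, hom_to_up hh s hs⟩
  · rintro ⟨h, hh⟩
    exact ⟨_, (hom_of_up hh).1⟩

/-- a homomorphism into the blow-up gives the values of the tuples -/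
def tupVal {A : Str σ M} {c : (Fin (k + 1) → V) → M} {C : Str (blow σ k) X} {h : X → V}
    (hh : IsHom C (blowStr A c) h) : Tup C → M :=
  Quot.lift (fun t => c (h ∘ t)) fun t t' htt => by
    have h1 : eqRel c (h ∘ pair t t') := hh none _ htt
    rw [comp_pair, eqRel_pair] at h1
    exact h1.2.2

theorem tupVal_hom {A : Str σ M} {c : (Fin (k + 1) → V) → M} {C : Str (blow σ k) X} {h : X → V}
    (hh : IsHom C (blowStr A c) h) : IsHom (downStr C) A (tupVal hh) := by
  rintro s q ⟨u, hu, hq⟩
  have h1 : upRel (A s) c (h ∘ u) := hh (some s) _ hu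
  have e : tupVal hh ∘ q = fun i => c fun j => (h ∘ u) (i, j) := by
    funext i
    change tupVal hh (q i) = _
    rw [hq i]
    rfl
  rw [e]
  exact h1.2

theorem proper_of_hom {A : Str σ M} {c : (Fin (k + 1) → V) → M} {C : Str (blow σ k) X}
    {h : X → V} (hh : IsHom C (blowStr A c) h) : Proper C := by
  refine ⟨fun u hu b => ?_, fun s u hu i => ?_⟩
  · have h1 : eqRel c (h ∘ u) := hh none u hu
    exact Function.Injective.of_comp (f := h) (h1.1 b)
  · have h1 : upRel (A s) c (h ∘ u) := hh (some s) u hu
    exact Function.Injective.of_comp (f := h) (h1.1 i)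

/-- values for the tuples give a homomorphism into the blow-up -/
theorem hom_of_colors {A : Str σ M} {c : (Fin (k + 1) → V) → M} {C : Str (blow σ k) X}
    (hC : Proper C) {χ : Tup C → M} (hχ : IsHom (downStr C) A χ) {h : X → V}
    (h1 : Function.Injective h)
    (h2 : ∀ t, Function.Injective t → c (h ∘ t) = χ (Quot.mk _ t)) :
    IsHom C (blowStr A c) h := by
  intro a
  cases a with
  | none =>
    intro (u : Bool × Fin (k + 1) → X) hu
    change eqRel c (h ∘ u)
    have h3 := hC.1 u hu
    refine ⟨fun b => h1.comp (h3 b), ?_⟩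
    have e1 := h2 _ (h3 false)
    have e2 := h2 _ (h3 true)
    change c (h ∘ fun j => u (false, j)) = c (h ∘ fun j => u (true, j))
    rw [e1, e2]
    congr 1
    apply Quot.sound
    have h4 : u = pair (fun j => u (false, j)) (fun j => u (true, j)) := by
      funext ⟨b, j⟩
      cases b <;> rfl
    rwa [h4] at hu
  | some s =>
    intro (u : σ.Ar s × Fin (k + 1) → X) hu
    change upRel (A s) c (h ∘ u)
    have h3 := hC.2 s u hu
    refine ⟨fun b => h1.comp (h3 b), ?_⟩
    have e : (fun i => c fun j => (h ∘ u) (i, j)) = χ ∘ fun i => Quot.mk _ fun j => u (i, j) := by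
      funext i
      exact h2 _ (h3 i)
    rw [e]
    exact hχ s _ ⟨u, hu, fun i => rfl⟩

theorem csp_down [Countable X] {A : Str σ M} {c : (Fin (k + 1) → V) → M} (hc : Ext c)
    (C : Str (blow σ k) X) : (∃ h, IsHom C (blowStr A c) h) ↔
      Proper C ∧ ∃ h, IsHom (downStr C) A h := by
  constructor
  · rintro ⟨h, hh⟩
    exact ⟨proper_of_hom hh, _, tupVal_hom hh⟩
  · rintro ⟨hC, χ, hχ⟩
    obtain ⟨h, h1, h2⟩ := hc.universal fun t => χ (Quot.mk _ t)
    exact ⟨h, hom_of_colors hC hχ h1 h2⟩

end

end Pool.Agent.H69.BP
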