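import Mathlib

/-!
# Relational structures, homogeneity, finite bounds and pp-constructions
-/

set_option autoImplicit false

namespace Pool.Agent.H69.BP

/-- A finite relational signature. The positions of a relation symbol are indexed by a finite
type. -/
structure Sig where
  /-- the relation symbols -/
  Sym : Type
  /-- the positions of a symbol -/
  Ar : Sym → Type
  /-- there are finitely many symbols -/
  finSym : Finite Sym
  /-- every symbol has finitely many positions -/
  finAr : ∀ s, Finite (Ar s)

/-- A structure with domain `M`: a relation for every symbol. -/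
abbrev Str (σ : Sig) (M : Type) : Type := (s : σ.Sym) → (σ.Ar s → M) → Prop

section
variable {σ τ ρ : Sig} {M N : Type}

/-- homomorphisms -/
def IsHom (A : Str σ M) (B : Str σ N) (h : M → N) : Prop := ∀ s t, A s t → B s (h ∘ t)

/-- embeddings -/
def IsEmb (A : Str σ M) (B : Str σ N) (h : M → N) : Prop :=
  Function.Injective h ∧ ∀ s t, A s t ↔ B s (h ∘ t)

/-- automorphisms -/
def IsAut (A : Str σ M) (g : M ≃ M) : Prop := ∀ s t, A s t ↔ A s (g ∘ t)

/-- every isomorphism between finite substructures extends to an automorphism -/
def Homogeneous (B : Str σ M) : Prop :=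
  ∀ (S : Finset M) (f : M → M), Set.InjOn f S →
    (∀ s t, (∀ i, t i ∈ S) → (B s t ↔ B s (f ∘ t))) → ∃ g, IsAut B g ∧ ∀ x ∈ S, g x = f x

/-- finitely bounded: the finite structures that embed into `B` are those into which no member of
a finite family of finite structures embeds -/
def FinBounded (B : Str σ M) : Prop :=
  ∃ (I : Type) (_ : Finite I) (D : I → Type) (_ : ∀ i, Finite (D i)) (F : ∀ i, Str σ (D i)),
    ∀ (X : Type) [Finite X] (C : Str σ X),
      (∃ h, IsEmb C B h) ↔ ∀ i, ¬ ∃ h, IsEmb (F i) C h

/-- `A` arises from `B` by discarding relations (up to the names of the symbols and positions) -/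
def IsReduct (A : Str σ M) (B : Str τ M) : Prop :=
  ∃ (f : σ.Sym → τ.Sym) (e : ∀ s, σ.Ar s ≃ τ.Ar (f s)), Function.Injective f ∧
    ∀ s t, A s t ↔ B (f s) (t ∘ (e s).symm)

/-- primitive positive definability, with the canonical structure `C` of the formula: the
solutions are the images of the tuple `x` under the homomorphisms `C → A` -/
def PPDef {ι : Type} (A : Str σ M) (R : (ι → M) → Prop) : Prop :=
  ∃ (X : Type) (_ : Finite X) (C : Str σ X) (x : ι → X), ∀ a, R a ↔ ∃ h, IsHom C A h ∧ h ∘ x = a

/-- `C` is homomorphically equivalent to a pp-power of `A` -/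
def PPConstructs (A : Str σ M) (C : Str ρ N) : Prop :=
  ∃ (ι : Type) (_ : Finite ι) (P : Str ρ (ι → M)),
    (∀ s, PPDef A fun a : ρ.Ar s × ι → M => P s fun i j => a (i, j)) ∧
      (∃ h, IsHom P C h) ∧ ∃ h, IsHom C P h

/-- the automorphism group is `k`-transitive -/
def KTransitive (k : ℕ) (B : Str σ M) : Prop :=
  ∀ x y : Fin k → M, Function.Injective x → Function.Injective y → ∃ g, IsAut B g ∧ g ∘ x = y

/-- no algebraicity: outside a finite set all orbits of its pointwise stabiliser are infinite -/
def NoAlgebraicity (B : Str σ M) : Prop :=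
  ∀ (S : Finset M) (v : M), v ∉ S →
    {w | ∃ g, IsAut B g ∧ (∀ x ∈ S, g x = x) ∧ g v = w}.Infinite

/-- model-complete core: every endomorphism preserves every orbit of the automorphism group -/
def ModelCompleteCore (A : Str σ M) : Prop :=
  ∀ e, IsHom A A e → ∀ (n : ℕ) (a : Fin n → M), ∃ g, IsAut A g ∧ g ∘ a = e ∘ a

end

/-- the signature of graphs -/
@[reducible] def graphSig : Sig where
  Sym := Unit
  Ar := fun _ => Bool
  finSym := inferInstance
  finAr := fun _ => inferInstance

/-- the complete graph with three vertices -/
def K3 : Str graphSig (Fin 3) := fun _ t => t false ≠ t true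

end Pool.Agent.H69.BP
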