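import Pool.Agent.H69.BP.Blow

/-!
# The blow-up of a finitely bounded structure is finitely bounded
-/

set_option autoImplicit false

namespace Pool.Agent.H69.BP

section
variable {σ : Sig} {M N P V : Type} {k : ℕ}

theorem IsEmb.comp {A : Str σ M} {B : Str σ N} {C : Str σ P} {g : N → P} {f : M → N}
    (hg : IsEmb B C g) (hf : IsEmb A B f) : IsEmb A C (g ∘ f) :=
  ⟨hg.1.comp hf.1, fun s t => (hf.2 s t).trans (hg.2 s (f ∘ t))⟩

/-- the induced structure -/
def sub (C : Str σ M) (Y : Finset M) : Str σ Y := fun s t => C s fun i => (t i).1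

/-- the size of the bounds -/
def Crit (B : Str σ M) (m : ℕ) : Prop := ∀ (X : Type) [Finite X] (C : Str σ X),
  (∀ Y : Finset X, Y.card ≤ m → ∃ h, IsEmb (sub C Y) B h) → ∃ h, IsEmb C B h

theorem crit_of_finBounded {B : Str σ M} (hB : FinBounded B) : ∃ m, Crit B m := by
  classical
  obtain ⟨I, hI, D, hD, F, h⟩ := hB
  obtain ⟨m, hm⟩ := (Set.finite_range fun i => Nat.card (D i)).bddAbove
  refine ⟨m, fun X _ C hC => (h X C).2 ?_⟩
  rintro i ⟨f, hf⟩
  have := Fintype.ofFinite (D i)
  obtain ⟨g, hg⟩ := hC (Finset.univ.image f) (by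
    refine Finset.card_image_le.trans ?_
    rw [Finset.card_univ, ← Nat.card_eq_fintype_card]
    exact hm ⟨i, rfl⟩)
  have h1 : IsEmb (F i) (sub C (Finset.univ.image f))
      fun x => ⟨f x, Finset.mem_image_of_mem f (Finset.mem_univ x)⟩ :=
    ⟨fun x y hxy => hf.1 (congrArg Subtype.val hxy), hf.2⟩
  exact (h (D i) (F i)).1 ⟨_, hg.comp h1⟩ i ⟨id, Function.injective_id, fun _ _ => Iff.rfl⟩

theorem finBounded_of_crit {B : Str σ M} {m : ℕ} (hB : Crit B m) : FinBounded B := by
  classical
  have h1 := σ.finSym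
  have h2 := σ.finAr
  refine ⟨{p : (n : Fin (m + 1)) × Str σ (Fin n) // ¬ ∃ h, IsEmb p.2 B h}, inferInstance,
    fun p => Fin p.1.1, fun _ => inferInstance, fun p => p.1.2, fun X _ C => ⟨?_, ?_⟩⟩
  · rintro ⟨h, hh⟩ ⟨p, hp⟩ ⟨f, hf⟩
    exact hp ⟨_, hh.comp hf⟩
  · intro h
    refine hB X C fun Y hY => ?_
    by_contra hc
    let e : Y ≃ Fin Y.card := Y.equivFin
    refine h ⟨⟨⟨Y.card, by omega⟩, fun s t => C s fun i => (e.symm (t i)).1⟩, ?_⟩
      ⟨fun i => (e.symm i).1, fun i j hij => e.symm.injective (Subtype.ext hij), fun _ _ => Iff.rfl⟩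
    rintro ⟨g, hg⟩
    refine hc ⟨g ∘ e, hg.1.comp e.injective, fun s t => ?_⟩
    have h3 := hg.2 s (e ∘ t)
    refine Iff.trans ?_ h3
    change C s _ ↔ C s _
    have h4 : (fun i => ((e.symm ((e ∘ t) i)).1)) = fun i => (t i).1 := by
      funext i
      simp
    rw [h4]

theorem Ext.nonempty {c : (Fin (k + 1) → V) → M} (hc : Ext c) (m : M) : Nonempty V := by
  obtain ⟨v, _⟩ := hc ∅ fun _ => m
  exact ⟨v⟩

theorem good_empty {Q : Type} (d : (Fin (k + 1) → Q) → M) (c : (Fin (k + 1) → V) → M) :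
    Good d c ∅ := by
  refine ⟨fun a ha => by simp at ha, fun t ht => ?_⟩
  have := ht 0
  simp at this

/-- every coloured countable set embeds -/
theorem Ext.universal {Q : Type} [Countable Q] {c : (Fin (k + 1) → V) → M} (hc : Ext c)
    (d : (Fin (k + 1) → Q) → M) : ∃ η : Q → V, Function.Injective η ∧
      ∀ t, Function.Injective t → c (η ∘ t) = d t := by
  obtain ⟨η, h1, h2, _⟩ := embed_all hc ∅ (good_empty d c)
  exact ⟨η, h1, h2⟩

theorem card_image_pair {X : Type} [DecidableEq X] {ι : Type} [Fintype ι] {n : ℕ}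
    (hn : Fintype.card ι ≤ n) (u : ι × Fin (k + 1) → X) :
    (Finset.univ.image u).card ≤ (k + 1) * n := by
  refine Finset.card_image_le.trans ?_
  rw [Finset.card_univ, Fintype.card_prod, Fintype.card_fin, mul_comm]
  exact Nat.mul_le_mul_left _ hn

theorem blow_finBounded {B : Str σ M} (hB : FinBounded B) [Nonempty M]
    {c : (Fin (k + 1) → V) → M} (hc : Ext c) : FinBounded (blowStr B c) := by
  classical
  obtain ⟨m, hm⟩ := crit_of_finBounded hB
  have hS := σ.finSym
  have hA := σ.finAr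
  have := fun s => Fintype.ofFinite (σ.Ar s)
  obtain ⟨a, ha⟩ : ∃ a, ∀ s : σ.Sym, Fintype.card (σ.Ar s) ≤ a := by
    obtain ⟨a, ha⟩ := (Set.finite_range fun s : σ.Sym => Fintype.card (σ.Ar s)).bddAbove
    exact ⟨a, fun s => ha ⟨s, rfl⟩⟩
  have hVne : Nonempty V := hc.nonempty (Classical.arbitrary M)
  refine finBounded_of_crit (m := (k + 1) * (m + (a + a) + 4)) fun X _ C hsub => ?_
  set N := (k + 1) * (m + (a + a) + 4) with hN
  -- the two kinds of relations
  set Ce : (Bool × Fin (k + 1) → X) → Prop := C none with hCe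
  set Cs : (s : σ.Sym) → (σ.Ar s × Fin (k + 1) → X) → Prop := fun s => C (some s) with hCs
  have hloc : ∀ Y : Finset X, Y.card ≤ N → ∃ e : X → V, Set.InjOn e Y ∧
      (∀ u : Bool × Fin (k + 1) → X, (∀ i, u i ∈ Y) → (Ce u ↔ eqRel c (e ∘ u))) ∧
      ∀ s (u : σ.Ar s × Fin (k + 1) → X), (∀ i, u i ∈ Y) →
        (Cs s u ↔ upRel (B s) c (e ∘ u)) := by
    intro Y hY
    obtain ⟨h, h1, h2⟩ := hsub Y hY
    have hval : ∀ (x : X) (hx : x ∈ Y),
        (if hx : x ∈ Y then h ⟨x, hx⟩ else Classical.arbitrary V) = h ⟨x, hx⟩ := fun x hx =>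
      dif_pos hx
    refine ⟨fun x => if hx : x ∈ Y then h ⟨x, hx⟩ else Classical.arbitrary V, ?_, ?_, ?_⟩
    · intro x hx y hy hxy
      beta_reduce at hxy
      rw [hval x hx, hval y hy] at hxy
      exact congrArg Subtype.val (h1 hxy)
    · intro u hu
      have h3 : Ce u ↔ eqRel c (h ∘ fun i => ⟨u i, hu i⟩) := h2 none fun i => ⟨u i, hu i⟩
      rw [h3]
      have h4 : (h ∘ fun i => ⟨u i, hu i⟩) =
          (fun x => if hx : x ∈ Y then h ⟨x, hx⟩ else Classical.arbitrary V) ∘ u := by
        funext i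
        exact (hval _ (hu i)).symm
      rw [h4]
    · intro s u hu
      have h3 : Cs s u ↔ upRel (B s) c (h ∘ fun i => ⟨u i, hu i⟩) :=
        h2 (some s) fun i => ⟨u i, hu i⟩
      rw [h3]
      have h4 : (h ∘ fun i => ⟨u i, hu i⟩) =
          (fun x => if hx : x ∈ Y then h ⟨x, hx⟩ else Classical.arbitrary V) ∘ u := by
        funext i
        exact (hval _ (hu i)).symm
      rw [h4]
  -- facts
  have f1 : ∀ u, Ce u → ∀ b, Function.Injective fun j => u (b, j) := by
    intro u hu b
    obtain ⟨e, h1, h2, _⟩ := hloc (Finset.univ.image u) (by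
      refine (card_image_pair (n := 2) (by simp) u).trans ?_
      exact Nat.mul_le_mul_left _ (by omega))
    have h3 := ((h2 u fun i => Finset.mem_image_of_mem u (Finset.mem_univ i)).1 hu).1 b
    exact Function.Injective.of_comp (f := e) h3
  have f5 : ∀ s u, Cs s u → ∀ i, Function.Injective fun j => u (i, j) := by
    intro s u hu b
    obtain ⟨e, h1, _, h2⟩ := hloc (Finset.univ.image u) (by
      refine (card_image_pair (n := a) (ha s) u).trans ?_
      exact Nat.mul_le_mul_left _ (by omega))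
    have h3 := ((h2 s u fun i => Finset.mem_image_of_mem u (Finset.mem_univ i)).1 hu).1 b
    exact Function.Injective.of_comp (f := e) h3
  have hmem : ∀ {ι : Type} [Fintype ι] (u : ι × Fin (k + 1) → X) (i : ι) (j : Fin (k + 1)),
      u (i, j) ∈ Finset.univ.image u := fun u i j =>
    Finset.mem_image_of_mem u (Finset.mem_univ _)
  -- three tuples
  have hthree : ∀ t t' t'' : Fin (k + 1) → X, ∃ e : X → V,
      (∀ x y, (x = t ∨ x = t' ∨ x = t'') → (y = t ∨ y = t' ∨ y = t'') →
        (Ce (pair x y) ↔ eqRel c (pair (e ∘ x) (e ∘ y)))) ∧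
      ∀ x, (x = t ∨ x = t' ∨ x = t'') → Function.Injective x → Function.Injective (e ∘ x) := by
    intro t t' t''
    set u : Fin 3 × Fin (k + 1) → X := fun p => ![t, t', t''] p.1 p.2 with hu
    obtain ⟨e, h1, h2, _⟩ := hloc (Finset.univ.image u) (by
      refine (card_image_pair (n := 3) (by simp) u).trans ?_
      exact Nat.mul_le_mul_left _ (by omega))
    have h4 : ∀ x, (x = t ∨ x = t' ∨ x = t'') → ∀ j, x j ∈ Finset.univ.image u := by
      rintro x (rfl | rfl | rfl) j
      · exact hmem u 0 j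
      · exact hmem u 1 j
      · exact hmem u 2 j
    refine ⟨e, fun x y hx hy => ?_, fun x hx hxi i j hij => hxi (h1 (h4 x hx i) (h4 x hx j) hij)⟩
    rw [h2 (pair x y) (by
      rintro ⟨b, j⟩
      cases b
      · exact h4 x hx j
      · exact h4 y hy j), comp_pair]
  have f2 : ∀ t, Function.Injective t → Ce (pair t t) := by
    intro t ht
    obtain ⟨e, h1, h2⟩ := hthree t t t
    rw [h1 t t (Or.inl rfl) (Or.inl rfl), eqRel_pair]
    exact ⟨h2 t (Or.inl rfl) ht, h2 t (Or.inl rfl) ht, rfl⟩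
  have f3 : ∀ t t', Ce (pair t t') → Ce (pair t' t) := by
    intro t t' h
    obtain ⟨e, h1, _⟩ := hthree t t' t'
    rw [h1 _ _ (Or.inl rfl) (Or.inr (Or.inl rfl)), eqRel_pair] at h
    rw [h1 _ _ (Or.inr (Or.inl rfl)) (Or.inl rfl), eqRel_pair]
    exact ⟨h.2.1, h.1, h.2.2.symm⟩
  have f4 : ∀ t t' t'', Ce (pair t t') → Ce (pair t' t'') → Ce (pair t t'') := by
    intro t t' t'' h h'
    obtain ⟨e, h1, _⟩ := hthree t t' t''
    rw [h1 _ _ (Or.inl rfl) (Or.inr (Or.inl rfl)), eqRel_pair] at h
    rw [h1 _ _ (Or.inr (Or.inl rfl)) (Or.inr (Or.inr rfl)), eqRel_pair] at h'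
    rw [h1 _ _ (Or.inl rfl) (Or.inr (Or.inr rfl)), eqRel_pair]
    exact ⟨h.1, h'.2.1, h.2.2.trans h'.2.2⟩
  have f6 : ∀ s (u u' : σ.Ar s × Fin (k + 1) → X), Cs s u →
      (∀ i, Ce (pair (fun j => u (i, j)) fun j => u' (i, j))) → Cs s u' := by
    intro s u u' hu huu
    obtain ⟨e, h1, h2, h3⟩ := hloc (Finset.univ.image u ∪ Finset.univ.image u') (by
      refine (Finset.card_union_le _ _).trans ?_
      refine (Nat.add_le_add (card_image_pair (ha s) u) (card_image_pair (ha s) u')).trans ?_
      rw [← mul_add]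
      exact Nat.mul_le_mul_left _ (by omega))
    have hl : ∀ i j, u (i, j) ∈ Finset.univ.image u ∪ Finset.univ.image u' := fun i j =>
      Finset.mem_union_left _ (hmem u i j)
    have hr : ∀ i j, u' (i, j) ∈ Finset.univ.image u ∪ Finset.univ.image u' := fun i j =>
      Finset.mem_union_right _ (hmem u' i j)
    have h4 := (h3 s u fun i => hl i.1 i.2).1 hu
    rw [h3 s u' fun i => hr i.1 i.2]
    have h5 : ∀ i, Function.Injective (fun j => e (u' (i, j))) ∧
        c (fun j => e (u (i, j))) = c (fun j => e (u' (i, j))) := by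
      intro i
      have h6 := huu i
      rw [h2 _ (by
        rintro ⟨b, j⟩
        cases b
        · exact hl i j
        · exact hr i j), comp_pair, eqRel_pair] at h6
      exact h6.2
    refine ⟨fun i => (h5 i).1, ?_⟩
    have h7 : (fun i => c fun j => (e ∘ u') (i, j)) = fun i => c fun j => (e ∘ u) (i, j) := by
      funext i
      exact (h5 i).2.symm
    rw [h7]
    exact h4.2
  -- the quotient
  let T := {t : Fin (k + 1) → X // Function.Injective t}
  let st : Setoid T :=
    { r := fun t t' => Ce (pair t.1 t'.1)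
      iseqv := ⟨fun t => f2 t.1 t.2, fun {t t'} h => f3 _ _ h, fun {t t' t''} h h' => f4 _ _ _ h h'⟩ }
  let Q := Quotient st
  let D : Str σ Q := fun s q => ∃ u : σ.Ar s → T, Cs s (fun p => (u p.1).1 p.2) ∧
    ∀ i, q i = Quotient.mk st (u i)
  have hout : ∀ q : Q, Quotient.mk st q.out = q := Quotient.out_eq
  have hD : ∀ s q, D s q ↔ Cs s (fun p => (q p.1).out.1 p.2) := by
    intro s q
    constructor
    · rintro ⟨u, h1, h2⟩
      refine f6 s _ _ h1 fun i => ?_
      have h3 : Quotient.mk st (u i) = Quotient.mk st (q i).out := by rw [hout, h2]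
      exact Quotient.exact h3
    · intro h
      exact ⟨fun i => (q i).out, h, fun i => (hout _).symm⟩
  obtain ⟨γ, hγ1, hγ2⟩ := hm Q D (by
    intro Y hY
    obtain ⟨e, h1, h2, h3⟩ := hloc (Finset.univ.image fun p : Y × Fin (k + 1) =>
      (p.1.1.out : T).1 p.2) (by
        refine (card_image_pair (n := m) (by simpa using hY) _).trans ?_
        exact Nat.mul_le_mul_left _ (by omega))
    have hin : ∀ (y : Q), y ∈ Y → ∀ j, (y.out : T).1 j ∈
        Finset.univ.image fun p : Y × Fin (k + 1) => (p.1.1.out : T).1 p.2 := fun y hy j =>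
      Finset.mem_image_of_mem (fun p : Y × Fin (k + 1) => (p.1.1.out : T).1 p.2)
        (Finset.mem_univ ((⟨y, hy⟩ : Y), j))
    have hinj : ∀ y ∈ Y, Function.Injective (e ∘ (y.out : T).1) := fun y hy i j hij =>
      (y.out : T).2 (h1 (hin y hy i) (hin y hy j) hij)
    refine ⟨fun y => c (e ∘ (y.1.out : T).1), ?_, ?_⟩
    · intro y y' hyy
      have h4 : Ce (pair (y.1.out : T).1 (y'.1.out : T).1) := by
        rw [h2 _ (by
          rintro ⟨b, j⟩
          cases b
          · exact hin y.1 y.2 j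
          · exact hin y'.1 y'.2 j), comp_pair, eqRel_pair]
        exact ⟨hinj _ y.2, hinj _ y'.2, hyy⟩
      have h5 : Quotient.mk st y.1.out = Quotient.mk st y'.1.out := Quotient.sound h4
      rw [hout, hout] at h5
      exact Subtype.ext h5
    · intro s q
      change D s (fun i => (q i).1) ↔ _
      rw [hD, h3 s _ fun p => hin _ (q p.1).2 p.2]
      constructor
      · rintro ⟨_, h⟩
        exact h
      · intro h
        exact ⟨fun i => hinj _ (q i).2, h⟩)
  -- the embedding
  let d : (Fin (k + 1) → X) → M := fun t =>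
    if h : Function.Injective t then γ (Quotient.mk st ⟨t, h⟩) else Classical.arbitrary M
  have hd : ∀ t (h : Function.Injective t), d t = γ (Quotient.mk st ⟨t, h⟩) := fun t h =>
    dif_pos h
  obtain ⟨η, h1, h2⟩ := hc.universal d
  have hblock : ∀ {ι : Type} (u : ι × Fin (k + 1) → X) (i : ι),
      (Function.Injective fun j => (η ∘ u) (i, j)) ↔ Function.Injective fun j => u (i, j) :=
    fun u i => h1.of_comp_iff (fun j => u (i, j))
  refine ⟨η, h1, fun s => ?_⟩
  cases s with
  | none =>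
    intro (u : Bool × Fin (k + 1) → X)
    change Ce u ↔ eqRel c (η ∘ u)
    have hu : u = pair (fun j => u (false, j)) (fun j => u (true, j)) := by
      funext ⟨b, j⟩
      cases b <;> rfl
    constructor
    · intro h
      have h3 := f1 u h
      refine ⟨fun b => (hblock u b).2 (h3 b), ?_⟩
      have e1 := h2 _ (h3 false)
      have e2 := h2 _ (h3 true)
      change c (η ∘ fun j => u (false, j)) = c (η ∘ fun j => u (true, j))
      rw [e1, e2, hd _ (h3 false), hd _ (h3 true)]
      congr 1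
      apply Quotient.sound
      change Ce (pair _ _)
      rw [← hu]
      exact h
    · rintro ⟨h3, h4⟩
      have h5 : ∀ b, Function.Injective fun j => u (b, j) := fun b => (hblock u b).1 (h3 b)
      have e1 := h2 _ (h5 false)
      have e2 := h2 _ (h5 true)
      change c (η ∘ fun j => u (false, j)) = c (η ∘ fun j => u (true, j)) at h4
      rw [e1, e2, hd _ (h5 false), hd _ (h5 true)] at h4
      have h6 : Ce (pair (fun j => u (false, j)) fun j => u (true, j)) :=
        Quotient.exact (hγ1 h4)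
      rwa [← hu] at h6
  | some s =>
    intro (u : σ.Ar s × Fin (k + 1) → X)
    change Cs s u ↔ upRel (B s) c (η ∘ u)
    constructor
    · intro h
      have h3 := f5 s u h
      refine ⟨fun i => (hblock u i).2 (h3 i), ?_⟩
      have e1 : (fun i => c fun j => (η ∘ u) (i, j)) =
          γ ∘ fun i => Quotient.mk st ⟨fun j => u (i, j), h3 i⟩ := by
        funext i
        have := h2 _ (h3 i)
        change c (η ∘ fun j => u (i, j)) = _
        rw [this, hd _ (h3 i)]
        rfl
      rw [e1]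
      exact (hγ2 s _).1 ⟨fun i => ⟨fun j => u (i, j), h3 i⟩, h, fun i => rfl⟩
    · rintro ⟨h3, h4⟩
      have h5 : ∀ i, Function.Injective fun j => u (i, j) := fun i => (hblock u i).1 (h3 i)
      have e1 : (fun i => c fun j => (η ∘ u) (i, j)) =
          γ ∘ fun i => Quotient.mk st ⟨fun j => u (i, j), h5 i⟩ := by
        funext i
        have := h2 _ (h5 i)
        change c (η ∘ fun j => u (i, j)) = _
        rw [this, hd _ (h5 i)]
        rfl
      rw [e1] at h4
      obtain ⟨u', h6, h7⟩ := (hγ2 s _).2 h4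
      refine f6 s _ _ h6 fun i => ?_
      have h8 : Ce (pair (fun j => u (i, j)) (u' i).1) := Quotient.exact (h7 i)
      exact f3 _ _ h8

end

end Pool.Agent.H69.BP
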