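import Pool.Agent.H69.BP.Defs

/-!
# Generic colourings of the injective `(k + 1)`-tuples
-/

set_option autoImplicit false

namespace Pool.Agent.H69.BP

/-- the extension property of a colouring -/
def Ext {k : ℕ} {V M : Type} (c : (Fin (k + 1) → V) → M) : Prop :=
  ∀ (W : Finset V) (φ : (Fin (k + 1) → Option V) → M), ∃ v, v ∉ W ∧
    ∀ t : Fin (k + 1) → Option V, Function.Injective t → (∀ i x, t i = some x → x ∈ W) →
      (∃ i, t i = none) → c (fun i => (t i).getD v) = φ t

theorem exists_ext (k : ℕ) (M : Type) [Countable M] [Nonempty M] :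
    ∃ c : (Fin (k + 1) → ℕ) → M, Ext c := by
  classical
  obtain ⟨e, he⟩ := exists_surjective_nat ((Finset ((Fin (k + 1) → Option ℕ) × M)) × ℕ)
  obtain ⟨m0⟩ := ‹Nonempty M›
  set c : (Fin (k + 1) → ℕ) → M := fun t =>
    if h : ∃ m, ((fun i => if t i = Finset.univ.sup t then none else some (t i)), m) ∈
      (e (Finset.univ.sup t)).1 then h.choose else m0 with hc
  refine ⟨c, fun W φ => ?_⟩
  -- the relevant tuples
  set S : Finset (Fin (k + 1) → Option ℕ) :=
    Fintype.piFinset fun _ => insert none (W.image some) with hS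
  set F : Finset ((Fin (k + 1) → Option ℕ) × M) := S.image fun s => (s, φ s) with hF
  have hinf : {n | (e n).1 = F}.Infinite := by
    choose g hg using fun j : ℕ => he (F, j)
    refine Set.infinite_of_injective_forall_mem (f := g) ?_ ?_
    · intro i j hij
      have h1 := hg i
      rw [hij, hg j] at h1
      exact (congrArg Prod.snd h1).symm
    · intro j
      change (e (g j)).1 = F
      rw [hg j]
  obtain ⟨v, hv1, hv2⟩ := hinf.exists_gt (W.sup id)
  have hvW : ∀ x ∈ W, x < v := fun x hx =>
    lt_of_le_of_lt (Finset.le_sup (f := id) hx) hv2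
  refine ⟨v, fun h => lt_irrefl _ (hvW v h), fun s _ h2 h3 => ?_⟩
  set t : Fin (k + 1) → ℕ := fun i => (s i).getD v with ht
  have hsup : Finset.univ.sup t = v := by
    apply le_antisymm
    · refine Finset.sup_le fun i _ => ?_
      change (s i).getD v ≤ v
      cases hsi : s i with
      | none => simp
      | some x =>
        simp only [Option.getD_some]
        exact (hvW x (h2 i x hsi)).le
    · obtain ⟨i, hi⟩ := h3
      have h4 : t i = v := by simp [ht, hi]
      rw [← h4]
      exact Finset.le_sup (f := t) (Finset.mem_univ i)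
  have hs : (fun i => if t i = Finset.univ.sup t then none else some (t i)) = s := by
    rw [hsup]
    funext i
    cases hsi : s i with
    | none => simp [ht, hsi]
    | some x =>
      have h4 := hvW x (h2 i x hsi)
      have h5 : t i = x := by simp [ht, hsi]
      rw [h5, if_neg (by omega)]
  have hmem : (s, φ s) ∈ F := by
    rw [hF, Finset.mem_image]
    refine ⟨s, ?_, rfl⟩
    rw [hS, Fintype.mem_piFinset]
    intro i
    cases hsi : s i with
    | none => simp
    | some x =>
      rw [Finset.mem_insert]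
      exact Or.inr (Finset.mem_image.2 ⟨x, h2 i x hsi, rfl⟩)
  have hex : ∃ m, ((fun i => if t i = Finset.univ.sup t then none else some (t i)), m) ∈
      (e (Finset.univ.sup t)).1 := by
    rw [hs, hsup, hv1]
    exact ⟨_, hmem⟩
  have hct : c t = hex.choose := by
    simp only [hc]
    exact dif_pos hex
  rw [hct]
  have hspec := hex.choose_spec
  generalize hex.choose = m at hspec ⊢
  rw [hs, hsup, hv1] at hspec
  rw [hF, Finset.mem_image] at hspec
  obtain ⟨s', _, h7⟩ := hspec
  have h8 : s' = s := congrArg Prod.fst h7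
  have h9 := congrArg Prod.snd h7
  rw [h8] at h9
  exact h9.symm

section
variable {k : ℕ} {Q V M : Type}

/-- finite partial isomorphisms -/
def Good (d : (Fin (k + 1) → Q) → M) (c : (Fin (k + 1) → V) → M) (F : Finset (Q × V)) : Prop :=
  (∀ a ∈ F, ∀ b ∈ F, a.1 = b.1 ↔ a.2 = b.2) ∧
    ∀ t : Fin (k + 1) → Q × V, (∀ i, t i ∈ F) → Function.Injective (fun i => (t i).1) →
      c (fun i => (t i).2) = d (fun i => (t i).1)

theorem Good.forth [DecidableEq (Q × V)] {d : (Fin (k + 1) → Q) → M} {c : (Fin (k + 1) → V) → M}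
    (hc : Ext c) {F : Finset (Q × V)} (hF : Good d c F) (q : Q) :
    ∃ v, Good d c (insert (q, v) F) := by
  classical
  by_cases hq : ∃ v, (q, v) ∈ F
  · obtain ⟨v, hv⟩ := hq
    exact ⟨v, by rwa [Finset.insert_eq_of_mem hv]⟩
  · have hq' : ∀ v, (q, v) ∉ F := fun v hv => hq ⟨v, hv⟩
    have : Nonempty Q := ⟨q⟩
    set W : Finset V := F.image Prod.snd with hW
    have hinv : ∀ w, w ∈ W → ∃ p, (p, w) ∈ F := by
      intro w hw
      obtain ⟨⟨p, w'⟩, h1, h2⟩ := Finset.mem_image.1 hw
      simp only at h2
      subst h2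
      exact ⟨p, h1⟩
    choose! inv hinv using hinv
    obtain ⟨v, hv1, hv2⟩ := hc W fun s => d fun i => (s i).elim q inv
    refine ⟨v, ?_, ?_⟩
    · intro a ha b hb
      rcases Finset.mem_insert.1 ha with rfl | ha <;> rcases Finset.mem_insert.1 hb with rfl | hb
      · simp
      · constructor
        · intro h
          refine absurd ?_ (hq' b.2)
          change q = b.1 at h
          rw [h]
          exact hb
        · intro h
          change v = b.2 at h
          exact absurd (Finset.mem_image.2 ⟨b, hb, h.symm⟩) hv1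
      · constructor
        · intro h
          refine absurd ?_ (hq' a.2)
          change a.1 = q at h
          rw [← h]
          exact ha
        · intro h
          change a.2 = v at h
          exact absurd (Finset.mem_image.2 ⟨a, ha, h⟩) hv1
      · exact hF.1 a ha b hb
    · intro t ht hinj
      by_cases hall : ∀ i, t i ∈ F
      · exact hF.2 t hall hinj
      · push Not at hall
        obtain ⟨i0, hi0⟩ := hall
        have ht0 : t i0 = (q, v) := by
          rcases Finset.mem_insert.1 (ht i0) with h | h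
          · exact h
          · exact absurd h hi0
        have hcase : ∀ i, (t i).1 = q → t i = (q, v) := by
          intro i hi
          rcases Finset.mem_insert.1 (ht i) with h | h
          · exact h
          · refine absurd ?_ (hq' (t i).2)
            rw [← hi]
            exact h
        have hcase' : ∀ i, (t i).1 ≠ q → t i ∈ F := by
          intro i hi
          rcases Finset.mem_insert.1 (ht i) with h | h
          · exact absurd (by rw [h]) hi
          · exact h
        set s : Fin (k + 1) → Option V := fun i => if (t i).1 = q then none else some (t i).2 with hs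
        have h1 : Function.Injective s := by
          intro i j hij
          apply hinj
          by_cases hi : (t i).1 = q <;> by_cases hj : (t j).1 = q
          · exact hi.trans hj.symm
          · simp [hs, hi, hj] at hij
          · simp [hs, hi, hj] at hij
          · simp only [hs, hi, hj, if_false, Option.some.injEq] at hij
            exact (hF.1 _ (hcase' i hi) _ (hcase' j hj)).2 hij
        have h2 : ∀ i x, s i = some x → x ∈ W := by
          intro i x hx
          by_cases hi : (t i).1 = q
          · simp [hs, hi] at hx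
          · simp only [hs, hi, if_false, Option.some.injEq] at hx
            exact Finset.mem_image.2 ⟨t i, hcase' i hi, hx⟩
        have h3 : ∃ i, s i = none := ⟨i0, by simp [hs, ht0]⟩
        have h4 := hv2 s h1 h2 h3
        have h5 : (fun i => (s i).getD v) = fun i => (t i).2 := by
          funext i
          by_cases hi : (t i).1 = q
          · rw [hcase i hi]
            simp [hs, hi]
          · simp [hs, hi]
        have h6 : (fun i => (s i).elim q inv) = fun i => (t i).1 := by
          funext i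
          by_cases hi : (t i).1 = q
          · simp [hs, hi]
          · have h7 : s i = some (t i).2 := by simp [hs, hi]
            rw [h7]
            change inv (t i).2 = (t i).1
            have h8 := hcase' i hi
            exact (hF.1 _ (hinv _ (Finset.mem_image.2 ⟨t i, h8, rfl⟩)) _ h8).2 rfl
        rw [h5, h6] at h4
        exact h4

theorem Good.swap [DecidableEq (Q × V)] [DecidableEq (V × Q)] {d : (Fin (k + 1) → Q) → M}
    {c : (Fin (k + 1) → V) → M} {F : Finset (Q × V)} (hF : Good d c F) :
    Good c d (F.image Prod.swap) := by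
  have hm : ∀ a, a ∈ F.image Prod.swap → a.swap ∈ F := by
    intro a ha
    obtain ⟨b, hb, rfl⟩ := Finset.mem_image.1 ha
    simpa using hb
  refine ⟨fun a ha b hb => ?_, fun t ht hinj => ?_⟩
  · exact (hF.1 _ (hm a ha) _ (hm b hb)).symm
  · have h1 : Function.Injective fun i => ((t i).swap).1 := by
      intro i j hij
      apply hinj
      exact (hF.1 _ (hm _ (ht i)) _ (hm _ (ht j))).1 hij
    exact (hF.2 (fun i => (t i).swap) (fun i => hm _ (ht i)) h1).symm

/-- an increasing sequence that fulfils countably many tasks -/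
theorem exists_seq {α ι : Type} [Countable ι] (G : Finset α → Prop) (T : ι → Finset α → Prop)
    (step : ∀ f, G f → ∀ i, ∃ f', f ⊆ f' ∧ G f' ∧ T i f') (f₀ : Finset α) (h₀ : G f₀) :
    ∃ F : ℕ → Finset α, F 0 = f₀ ∧ Monotone F ∧ (∀ n, G (F n)) ∧ ∀ i, ∃ n, T i (F n) := by
  rcases isEmpty_or_nonempty ι with hι | hι
  · exact ⟨fun _ => f₀, rfl, monotone_const, fun _ => h₀, fun i => isEmptyElim i⟩
  · obtain ⟨e, he⟩ := exists_surjective_nat ι
    choose nx h1 h2 h3 using step
    let F : ℕ → {f // G f} := fun n => Nat.rec ⟨f₀, h₀⟩ (fun n f => ⟨nx f.1 f.2 (e n), h2 _ _ _⟩) n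
    refine ⟨fun n => (F n).1, rfl, monotone_nat_of_le_succ fun n => h1 _ _ _, fun n => (F n).2,
      fun i => ?_⟩
    obtain ⟨n, rfl⟩ := he i
    exact ⟨n + 1, h3 _ _ _⟩

/-- a tuple in the union of an increasing sequence lies in one of its members -/
theorem exists_bound {α ι : Type} [Finite ι] {F : ℕ → Finset α} (hF : Monotone F) (t : ι → α)
    (h : ∀ i, ∃ n, t i ∈ F n) : ∃ n, ∀ i, t i ∈ F n := by
  choose m hm using h
  obtain ⟨N, hN⟩ := (Set.finite_range m).bddAbove
  exact ⟨N, fun i => hF (hN ⟨i, rfl⟩) (hm i)⟩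

theorem embed_all [Countable Q] {d : (Fin (k + 1) → Q) → M} {c : (Fin (k + 1) → V) → M}
    (hc : Ext c) (F₀ : Finset (Q × V)) (h₀ : Good d c F₀) : ∃ η : Q → V, Function.Injective η ∧
      (∀ t, Function.Injective t → c (η ∘ t) = d t) ∧ ∀ p ∈ F₀, η p.1 = p.2 := by
  classical
  obtain ⟨F, h1, h2, h3, h4⟩ := exists_seq (ι := Q) (Good d c) (fun q f => ∃ v, (q, v) ∈ f)
    (fun f hf q => by
      obtain ⟨v, hv⟩ := hf.forth hc q
      exact ⟨_, Finset.subset_insert _ _, hv, v, Finset.mem_insert_self _ _⟩) F₀ h₀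
  choose n η hη using h4
  have key : ∀ a b : Q × V, (∃ n, a ∈ F n) → (∃ n, b ∈ F n) → (a.1 = b.1 ↔ a.2 = b.2) := by
    rintro a b ⟨n, hn⟩ ⟨m, hm⟩
    exact (h3 (max n m)).1 a (h2 (le_max_left _ _) hn) b (h2 (le_max_right _ _) hm)
  refine ⟨η, fun q q' h => (key (q, η q) (q', η q') ⟨_, hη q⟩ ⟨_, hη q'⟩).2 h, fun t ht => ?_,
    fun p hp => ?_⟩
  · obtain ⟨N, hN⟩ := exists_bound h2 (fun i => (t i, η (t i))) fun i => ⟨_, hη (t i)⟩
    exact (h3 N).2 (fun i => (t i, η (t i))) hN ht
  · exact (key (p.1, η p.1) p ⟨_, hη p.1⟩ ⟨0, by rw [h1]; exact hp⟩).1 rfl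

theorem iso_all [Countable Q] [Countable V] {d : (Fin (k + 1) → Q) → M}
    {c : (Fin (k + 1) → V) → M} (hd : Ext d) (hc : Ext c) (F₀ : Finset (Q × V))
    (h₀ : Good d c F₀) : ∃ g : Q ≃ V, (∀ t, Function.Injective t → c (g ∘ t) = d t) ∧
      ∀ p ∈ F₀, g p.1 = p.2 := by
  classical
  obtain ⟨F, h1, h2, h3, h4⟩ := exists_seq (ι := Q ⊕ V) (Good d c)
    (fun i f => (∀ q, i = Sum.inl q → ∃ v, (q, v) ∈ f) ∧ ∀ v, i = Sum.inr v → ∃ q, (q, v) ∈ f)
    (fun f hf i => by
      rcases i with q | v
      · obtain ⟨v, hv⟩ := hf.forth hc q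
        refine ⟨_, Finset.subset_insert _ _, hv, fun q' h => ?_, fun v' h => (by cases h)⟩
        cases h
        exact ⟨v, Finset.mem_insert_self _ _⟩
      · obtain ⟨q, hq⟩ := hf.swap.forth hd v
        have h5 := hq.swap
        have h6 : (insert (v, q) (f.image Prod.swap)).image Prod.swap = insert (q, v) f := by
          rw [Finset.image_insert, Finset.image_image]
          simp
        rw [h6] at h5
        refine ⟨_, Finset.subset_insert _ _, h5, fun q' h => (by cases h), fun v' h => ?_⟩
        cases h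
        exact ⟨q, Finset.mem_insert_self _ _⟩) F₀ h₀
  have h5 : ∀ q, ∃ v, ∃ n, (q, v) ∈ F n := fun q => by
    obtain ⟨n, h5, _⟩ := h4 (Sum.inl q)
    obtain ⟨v, hv⟩ := h5 q rfl
    exact ⟨v, n, hv⟩
  have h6 : ∀ v, ∃ q, ∃ n, (q, v) ∈ F n := fun v => by
    obtain ⟨n, _, h5⟩ := h4 (Sum.inr v)
    obtain ⟨q, hq⟩ := h5 v rfl
    exact ⟨q, n, hq⟩
  choose η hη using h5
  choose ζ hζ using h6
  have key : ∀ a b : Q × V, (∃ n, a ∈ F n) → (∃ n, b ∈ F n) → (a.1 = b.1 ↔ a.2 = b.2) := by
    rintro a b ⟨n, hn⟩ ⟨m, hm⟩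
    exact (h3 (max n m)).1 a (h2 (le_max_left _ _) hn) b (h2 (le_max_right _ _) hm)
  refine ⟨⟨η, ζ, fun q => ?_, fun v => ?_⟩, fun t ht => ?_, fun p hp => ?_⟩
  · exact (key (ζ (η q), η q) (q, η q) (hζ _) (hη _)).2 rfl
  · exact (key (ζ v, η (ζ v)) (ζ v, v) (hη _) (hζ _)).1 rfl
  · obtain ⟨N, hN⟩ := exists_bound h2 (fun i => (t i, η (t i))) fun i => hη (t i)
    exact (h3 N).2 (fun i => (t i, η (t i))) hN ht
  · exact (key (p.1, η p.1) p (hη p.1) ⟨0, by rw [h1]; exact hp⟩).1 rfl

end

end Pool.Agent.H69.BP
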