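import Pool.Agent.H69.BP.Core

/-!
# The Bodirsky–Pinsker conjecture for `k`-transitive templates
-/

set_option autoImplicit false

namespace Pool.Agent.H69.BP.KTrans

open Pool.Agent.H69.BP

theorem result (k : ℕ) (hk : 0 < k) {σ τ : Sig} {M : Type} [Countable M] [Nonempty M]
    (A : Str σ M) (B : Str τ M) (hB : Homogeneous B) (hF : FinBounded B) (hAB : IsReduct A B) :
    ∃ (V : Type) (_ : Countable V) (_ : Infinite V) (B' : Str (blow τ k) V)
      (A' : Str (blow σ k) V),
      Homogeneous B' ∧ FinBounded B' ∧ IsReduct A' B' ∧ KTransitive k B' ∧ NoAlgebraicity B' ∧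
      (ModelCompleteCore A → ModelCompleteCore A') ∧
      (PPConstructs A' K3 ↔ PPConstructs A K3) ∧
      (∀ (X : Type) [Finite X] (C : Str σ X),
        (∃ h, IsHom C A h) ↔ ∃ h, IsHom (upStr k C) A' h) ∧
      ∀ (X : Type) [Finite X] (C : Str (blow σ k) X),
        (∃ h, IsHom C A' h) ↔ Proper C ∧ ∃ h, IsHom (downStr C) A h := by
  obtain ⟨c, hc⟩ := exists_ext k M
  exact ⟨ℕ, inferInstance, inferInstance, blowStr B c, blowStr A c, blow_homogeneous hB hc,
    blow_finBounded hF hc, blow_isReduct hAB c, blow_kTransitive B hc, blow_noAlgebraicity B hc,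
    fun hA => blow_core hA hc hk, ⟨ppK3_down hc, ppK3_up hc⟩, fun X _ C => csp_up hc C,
    fun X _ C => csp_down hc C⟩

end Pool.Agent.H69.BP.KTrans
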