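import Pool.Agent.H69.BP.Csp

/-!
# pp-constructions of the triangle from the blow-up
-/

set_option autoImplicit false

namespace Pool.Agent.H69.BP

section
variable {ι Y M : Type} {k : ℕ}

/-- the vertices of the new pp-power -/
abbrev Vx (ι M : Type) (k : ℕ) : Type := (Fin (k + 1) → ι) → M

/-- tuples of constant coordinates -/
abbrev JC (k : ℕ) (u v : ι → Y) : Type := {j : Fin (k + 1) → ι // ∀ l, u (j l) = v (j l)}

/-- the points of the amalgam -/
abbrev Pt (k : ℕ) (M : Type) (u v : ι → Y) : Type :=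
  ((JC k u v → M) × Y) ⊕ (((Vx ι M k × ℕ) × Y) ⊕ ((Vx ι M k × Vx ι M k × ℕ × ℕ) × Y))

open Classical in
/-- the point with the coordinate `p` of the copy `i` of the vertex `κ` -/
noncomputable def pt (u v : ι → Y) (κ : Vx ι M k) (i : ℕ) (p : ι) : Pt k M u v :=
  if u p = v p then Sum.inl (fun j => κ j.1, u p) else Sum.inr (Sum.inl ((κ, i), u p))

theorem pt_cst {u v : ι → Y} {κ : Vx ι M k} {i : ℕ} {p : ι} (h : u p = v p) :
    pt u v κ i p = Sum.inl (fun j => κ j.1, u p) := if_pos h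

theorem pt_ncst {u v : ι → Y} {κ : Vx ι M k} {i : ℕ} {p : ι} (h : u p ≠ v p) :
    pt u v κ i p = Sum.inr (Sum.inl ((κ, i), u p)) := if_neg h

theorem pt_eq {u v : ι → Y} {κ κ' : Vx ι M k} {i i' : ℕ} {p p' : ι}
    (h : pt u v κ i p = pt u v κ' i' p') : u p = u p' ∧ (u p = v p ↔ u p' = v p') ∧
      (u p = v p → ∀ j : JC k u v, κ j.1 = κ' j.1) ∧ (u p ≠ v p → κ = κ' ∧ i = i') := by
  by_cases h1 : u p = v p <;> by_cases h2 : u p' = v p'
  · rw [pt_cst h1, pt_cst h2] at h
    have h3 := Sum.inl_injective h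
    simp only [Prod.mk.injEq] at h3
    exact ⟨h3.2, iff_of_true h1 h2, fun _ j => congrFun h3.1 j, fun h => absurd h1 h⟩
  · rw [pt_cst h1, pt_ncst h2] at h
    cases h
  · rw [pt_ncst h1, pt_cst h2] at h
    cases h
  · rw [pt_ncst h1, pt_ncst h2] at h
    have h3 := Sum.inl_injective (Sum.inr_injective h)
    simp only [Prod.mk.injEq] at h3
    exact ⟨h3.2, iff_of_false h1 h2, fun h => absurd h h1, fun _ => h3.1⟩

/-- the two tuples of variables are in good position -/
structure Pos (u v : ι → Y) : Prop where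
  same : ∀ p q, u p = u q ↔ v p = v q
  cst : ∀ p q, u p = v q → u p = v p ∧ u q = v q

theorem pt_congr {u v : ι → Y} (h : Pos u v) {κ : Vx ι M k} {i : ℕ} {p q : ι} (hpq : u p = u q) :
    pt u v κ i p = pt u v κ i q := by
  have h1 := (h.same p q).1 hpq
  by_cases h2 : u p = v p
  · rw [pt_cst h2, pt_cst (hpq ▸ h1 ▸ h2), hpq]
  · rw [pt_ncst h2, pt_ncst (by rw [← hpq, ← h1]; exact h2), hpq]

variable {σ : Sig} {A : Str σ M} {C : Str (blow σ k) Y}

/-- the edges of the new pp-power, with copies -/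
structure Edge (A : Str σ M) (C : Str (blow σ k) Y) (u v : ι → Y) : Type where
  /-- the source -/
  κ : Vx ι M k
  /-- the target -/
  κ' : Vx ι M k
  /-- the index of the copy of the source -/
  i : ℕ
  /-- the index of the copy of the target -/
  i' : ℕ
  lt : i < i'
  ex : ∃ χ : Tup C → M, IsHom (downStr C) A χ ∧ (∀ j, χ (Quot.mk _ (u ∘ j)) = κ j) ∧
    ∀ j, χ (Quot.mk _ (v ∘ j)) = κ' j

theorem Edge.eq {u v : ι → Y} {e e' : Edge A C u v} (h1 : e.κ = e'.κ) (h2 : e.κ' = e'.κ')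
    (h3 : e.i = e'.i) (h4 : e.i' = e'.i') : e = e' := by
  cases e
  cases e'
  simp only at h1 h2 h3 h4
  subst h1 h2 h3 h4
  rfl

/-- the witness -/
noncomputable def Edge.χ {u v : ι → Y} (e : Edge A C u v) : Tup C → M := e.ex.choose

theorem Edge.hom {u v : ι → Y} (e : Edge A C u v) : IsHom (downStr C) A e.χ :=
  e.ex.choose_spec.1

theorem Edge.src {u v : ι → Y} (e : Edge A C u v) (j) : e.χ (Quot.mk _ (u ∘ j)) = e.κ j :=
  e.ex.choose_spec.2.1 j

theorem Edge.tgt {u v : ι → Y} (e : Edge A C u v) (j) : e.χ (Quot.mk _ (v ∘ j)) = e.κ' j :=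
  e.ex.choose_spec.2.2 j

open Classical in
/-- the copy of the variables for an edge -/
noncomputable def Edge.η {u v : ι → Y} (e : Edge A C u v) (y : Y) : Pt k M u v :=
  if h : ∃ p, u p = y then pt u v e.κ e.i h.choose
  else if h : ∃ p, v p = y then pt u v e.κ' e.i' h.choose
  else Sum.inr (Sum.inr ((e.κ, e.κ', e.i, e.i'), y))

theorem Edge.η_u {u v : ι → Y} (hp : Pos u v) (e : Edge A C u v) (p : ι) :
    e.η (u p) = pt u v e.κ e.i p := by
  have h : ∃ q, u q = u p := ⟨p, rfl⟩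
  unfold Edge.η
  rw [dif_pos h]
  exact pt_congr hp h.choose_spec

theorem Edge.η_v {u v : ι → Y} (hp : Pos u v) (e : Edge A C u v) (p : ι) :
    e.η (v p) = pt u v e.κ' e.i' p := by
  by_cases h : ∃ q, u q = v p
  · obtain ⟨q, hq⟩ := h
    obtain ⟨h1, h2⟩ := hp.cst q p hq
    rw [← hq, e.η_u hp, pt_cst h1, pt_cst h2]
    have h3 : (fun j : JC k u v => e.κ j.1) = fun j => e.κ' j.1 := by
      funext j
      rw [← e.src, ← e.tgt]
      congr 2
      funext l
      exact j.2 l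
    rw [h3, hq, h2]
  · have h' : ∃ q, v q = v p := ⟨p, rfl⟩
    unfold Edge.η
    rw [dif_neg h, dif_pos h']
    exact pt_congr hp ((hp.same _ _).2 h'.choose_spec)

theorem Edge.η_w {u v : ι → Y} (e : Edge A C u v) {y : Y} (h1 : ∀ p, u p ≠ y)
    (h2 : ∀ p, v p ≠ y) : e.η y = Sum.inr (Sum.inr ((e.κ, e.κ', e.i, e.i'), y)) := by
  unfold Edge.η
  rw [dif_neg (by push Not; exact h1), dif_neg (by push Not; exact h2)]

theorem pt_ne {u v : ι → Y} {κ : Vx ι M k} {i : ℕ} {p : ι}
    {y : Vx ι M k × Vx ι M k × ℕ × ℕ} {z : Y} : pt u v κ i p ≠ Sum.inr (Sum.inr (y, z)) := by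
  by_cases h : u p = v p
  · rw [pt_cst h]
    intro h'
    cases h'
  · rw [pt_ncst h]
    intro h'
    cases h'

theorem Edge.η_inj {u v : ι → Y} (hp : Pos u v) (e : Edge A C u v) :
    Function.Injective e.η := by
  intro y y' h
  have key : ∀ y, (∃ p, u p = y) ∨ (∃ p, v p = y) ∨ ((∀ p, u p ≠ y) ∧ ∀ p, v p ≠ y) := by
    intro y
    by_cases h1 : ∃ p, u p = y
    · exact Or.inl h1
    · by_cases h2 : ∃ p, v p = y
      · exact Or.inr (Or.inl h2)
      · push Not at h1 h2
        exact Or.inr (Or.inr ⟨h1, h2⟩)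
  have huv : ∀ p q, pt u v e.κ e.i p = pt u v e.κ' e.i' q → u p = v q := by
    intro p q hpq
    obtain ⟨h1, h2, h3, h4⟩ := pt_eq hpq
    by_cases h5 : u p = v p
    · rw [h1]
      exact h2.1 h5
    · have := (h4 h5).2
      have := e.lt
      omega
  rcases key y with ⟨p, rfl⟩ | ⟨p, rfl⟩ | ⟨h1, h2⟩ <;>
    rcases key y' with ⟨q, rfl⟩ | ⟨q, rfl⟩ | ⟨h3, h4⟩
  · rw [e.η_u hp, e.η_u hp] at h
    exact (pt_eq h).1
  · rw [e.η_u hp, e.η_v hp] at h
    exact huv _ _ h
  · rw [e.η_u hp, e.η_w h3 h4] at h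
    exact absurd h pt_ne
  · rw [e.η_v hp, e.η_u hp] at h
    exact (huv _ _ h.symm).symm
  · rw [e.η_v hp, e.η_v hp] at h
    exact (hp.same _ _).1 (pt_eq h).1
  · rw [e.η_v hp, e.η_w h3 h4] at h
    exact absurd h pt_ne
  · rw [e.η_w h1 h2, e.η_u hp] at h
    exact absurd h.symm pt_ne
  · rw [e.η_w h1 h2, e.η_v hp] at h
    exact absurd h.symm pt_ne
  · rw [e.η_w h1 h2, e.η_w h3 h4] at h
    have h5 := Sum.inr_injective (Sum.inr_injective h)
    simp only [Prod.mk.injEq] at h5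
    exact h5.2

/-- a tuple that lies in the copy of one vertex -/
def Edge.Simple {u v : ι → Y} (e : Edge A C u v) (t : Fin (k + 1) → Y) : Prop :=
  ∃ (κ : Vx ι M k) (i : ℕ) (p : Fin (k + 1) → ι), (∀ l, e.η (t l) = pt u v κ i (p l)) ∧
    e.χ (Quot.mk _ t) = κ p ∧ ∀ p', (∀ l, u (p l) = u (p' l)) → κ p = κ p'

theorem Edge.simple_or {u v : ι → Y} (hp : Pos u v) (e e' : Edge A C u v)
    {t t' : Fin (k + 1) → Y} (h : ∀ l, e.η (t l) = e'.η (t' l)) : e.Simple t ∨ e = e' := by
  by_cases ha : ∃ l, (∀ p, u p ≠ t l) ∧ ∀ p, v p ≠ t l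
  · right
    obtain ⟨l, h1, h2⟩ := ha
    have h3 := h l
    rw [e.η_w h1 h2] at h3
    by_cases h4 : ∃ p, u p = t' l
    · obtain ⟨p, hpl⟩ := h4
      rw [← hpl, e'.η_u hp] at h3
      exact absurd h3.symm pt_ne
    · by_cases h5 : ∃ p, v p = t' l
      · obtain ⟨p, hpl⟩ := h5
        rw [← hpl, e'.η_v hp] at h3
        exact absurd h3.symm pt_ne
      · push Not at h4 h5
        rw [e'.η_w h4 h5] at h3
        have h6 := Sum.inr_injective (Sum.inr_injective h3)
        simp only [Prod.mk.injEq] at h6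
        exact Edge.eq h6.1.1 h6.1.2.1 h6.1.2.2.1 h6.1.2.2.2
  · push Not at ha
    have ha' : ∀ l, (∃ p, u p = t l) ∨ ∃ p, v p = t l := by
      intro l
      by_cases h1 : ∃ p, u p = t l
      · exact Or.inl h1
      · push Not at h1
        exact Or.inr (ha l h1)
    by_cases hu : ∀ l, ∃ p, u p = t l
    · left
      choose p hpt using hu
      have ht : t = u ∘ p := by
        funext l
        exact (hpt l).symm
      refine ⟨e.κ, e.i, p, fun l => by rw [← hpt l, e.η_u hp], ?_, fun p' hpp => ?_⟩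
      · rw [ht, e.src]
      · rw [← e.src, ← e.src]
        congr 2
        funext l
        exact hpp l
    · by_cases hv : ∀ l, ∃ p, v p = t l
      · left
        choose p hpt using hv
        have ht : t = v ∘ p := by
          funext l
          exact (hpt l).symm
        refine ⟨e.κ', e.i', p, fun l => by rw [← hpt l, e.η_v hp], ?_, fun p' hpp => ?_⟩
        · rw [ht, e.tgt]
        · rw [← e.tgt, ← e.tgt]
          congr 2
          funext l
          exact (hp.same _ _).1 (hpp l)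
      · right
        push Not at hu hv
        obtain ⟨l, hl⟩ := hu
        obtain ⟨m, hm⟩ := hv
        obtain ⟨p, hpm⟩ : ∃ p, u p = t m := (ha' m).resolve_right (by push Not; exact hm)
        obtain ⟨q, hql⟩ : ∃ q, v q = t l := (ha' l).resolve_left (by push Not; exact hl)
        have h1 : u p ≠ v p := fun h' => hm p (h'.symm.trans hpm)
        have h2 : u q ≠ v q := fun h' => hl q (h'.trans hql)
        have h3 := h m
        have h4 := h l
        rw [← hpm, e.η_u hp] at h3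
        rw [← hql, e.η_v hp] at h4
        -- the vertices of the other edge
        have key : ∀ (κ : Vx ι M k) (i : ℕ) (r : ι) (y : Y), u r ≠ v r →
            pt u v κ i r = e'.η y → (κ = e'.κ ∧ i = e'.i) ∨ (κ = e'.κ' ∧ i = e'.i') := by
          intro κ i r y hr hy
          by_cases h5 : ∃ s, u s = y
          · obtain ⟨s, rfl⟩ := h5
            rw [e'.η_u hp] at hy
            exact Or.inl ((pt_eq hy).2.2.2 hr)
          · by_cases h6 : ∃ s, v s = y
            · obtain ⟨s, rfl⟩ := h6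
              rw [e'.η_v hp] at hy
              exact Or.inr ((pt_eq hy).2.2.2 hr)
            · push Not at h5 h6
              rw [e'.η_w h5 h6] at hy
              exact absurd hy pt_ne
        have h5 := e.lt
        have h6 := e'.lt
        rcases key _ _ _ _ h1 h3 with ⟨h7, h8⟩ | ⟨h7, h8⟩ <;>
          rcases key _ _ _ _ h2 h4 with ⟨h9, h10⟩ | ⟨h9, h10⟩
        · omega
        · exact Edge.eq h7 h9 h8 h10
        · omega
        · omega

theorem Edge.consistent {u v : ι → Y} (hp : Pos u v) (e e' : Edge A C u v)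
    {t t' : Fin (k + 1) → Y} (h : ∀ l, e.η (t l) = e'.η (t' l)) :
    e.χ (Quot.mk _ t) = e'.χ (Quot.mk _ t') := by
  by_cases he : e = e'
  · subst he
    have : t = t' := by
      funext l
      exact e.η_inj hp (h l)
    rw [this]
  · obtain ⟨κ, i, p, h1, h2, h3⟩ := (e.simple_or hp e' h).resolve_right he
    obtain ⟨κ', i', p', h1', h2', h3'⟩ :=
      (e'.simple_or hp e fun l => (h l).symm).resolve_right (Ne.symm he)
    have h4 : ∀ l, pt u v κ i (p l) = pt u v κ' i' (p' l) := fun l => by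
      rw [← h1 l, ← h1' l, h l]
    rw [h2, h2']
    by_cases h5 : ∀ l, u (p l) = v (p l)
    · have h6 := (pt_eq (h4 0)).2.2.1 (h5 0) ⟨p, h5⟩
      rw [h6]
      have h7 : ∀ l, u (p' l) = u (p l) := fun l => (pt_eq (h4 l)).1.symm
      exact (h3' p h7).symm
    · push Not at h5
      obtain ⟨l, hl⟩ := h5
      obtain ⟨h6, _⟩ := (pt_eq (h4 l)).2.2.2 hl
      rw [h3 p' fun l => (pt_eq (h4 l)).1, h6]

end

section
variable {σ : Sig} {M V : Type} {k : ℕ}

/-- the main step: a colouring of the pp-power of the blow-up gives a colouring of the pp-power of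
the structure -/
theorem coloring {A : Str σ M} [Countable M] [Nonempty M] {c : (Fin (k + 1) → V) → M} (hc : Ext c)
    {ι Y : Type} [Finite ι] [Finite Y] {C : Str (blow σ k) Y} {u v : ι → Y} (hp : Pos u v)
    (hC : Proper C) {g : (ι → V) → Fin 3}
    (hg : ∀ h, IsHom C (blowStr A c) h → g (h ∘ u) ≠ g (h ∘ v)) :
    ∃ g' : Vx ι M k → Fin 3, ∀ χ, IsHom (downStr C) A χ →
      g' (fun j => χ (Quot.mk _ (u ∘ j))) ≠ g' fun j => χ (Quot.mk _ (v ∘ j)) := by
  classical
  let D : (Fin (k + 1) → Pt k M u v) → M := fun q =>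
    if h : ∃ (e : Edge A C u v) (t : Fin (k + 1) → Y), ∀ l, e.η (t l) = q l then
      h.choose.χ (Quot.mk _ h.choose_spec.choose) else Classical.arbitrary M
  have hD : ∀ (e : Edge A C u v) (t : Fin (k + 1) → Y), D (e.η ∘ t) = e.χ (Quot.mk _ t) := by
    intro e t
    have h : ∃ (e' : Edge A C u v) (t' : Fin (k + 1) → Y), ∀ l, e'.η (t' l) = (e.η ∘ t) l :=
      ⟨e, t, fun l => rfl⟩
    have h1 : D (e.η ∘ t) = h.choose.χ (Quot.mk _ h.choose_spec.choose) := dif_pos h
    rw [h1]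
    exact Edge.consistent hp _ _ h.choose_spec.choose_spec
  obtain ⟨θ, hθ1, hθ2⟩ := hc.universal D
  have hedge : ∀ e : Edge A C u v,
      g (fun p => θ (pt u v e.κ e.i p)) ≠ g fun p => θ (pt u v e.κ' e.i' p) := by
    intro e
    have h1 : IsHom C (blowStr A c) (θ ∘ e.η) :=
      hom_of_colors hC e.hom (hθ1.comp (e.η_inj hp)) fun t ht => by
        have h2 := hθ2 (e.η ∘ t) ((e.η_inj hp).comp ht)
        rw [← hD e t, ← h2]
        rfl
    have h2 := hg _ h1
    have h3 : (θ ∘ e.η) ∘ u = fun p => θ (pt u v e.κ e.i p) := by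
      funext p
      change θ (e.η (u p)) = _
      rw [e.η_u hp]
    have h4 : (θ ∘ e.η) ∘ v = fun p => θ (pt u v e.κ' e.i' p) := by
      funext p
      change θ (e.η (v p)) = _
      rw [e.η_v hp]
    rwa [h3, h4] at h2
  have hfib : ∀ κ : Vx ι M k, ∃ a : Fin 3, {i : ℕ | g (fun p => θ (pt u v κ i p)) = a}.Infinite := by
    intro κ
    obtain ⟨a, ha⟩ := Finite.exists_infinite_fiber fun i : ℕ => g fun p => θ (pt u v κ i p)
    exact ⟨a, Set.infinite_coe_iff.1 ha⟩
  choose γ hγ using hfib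
  refine ⟨γ, fun χ hχ heq => ?_⟩
  obtain ⟨i, hi⟩ := (hγ fun j => χ (Quot.mk _ (u ∘ j))).nonempty
  obtain ⟨i', hi', hlt⟩ := (hγ fun j => χ (Quot.mk _ (v ∘ j))).exists_gt i
  have h1 := hedge ⟨_, _, i, i', hlt, χ, hχ, fun _ => rfl, fun _ => rfl⟩
  apply h1
  change g (fun p => θ (pt u v _ i p)) = _ at hi
  change g (fun p => θ (pt u v _ i' p)) = _ at hi'
  change g (fun p => θ (pt u v _ i p)) = g fun p => θ (pt u v _ i' p)
  rw [hi, hi', heq]

/-- a convenient form -/
theorem ppK3_iff (A : Str σ M) : PPConstructs A K3 ↔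
    ∃ (ι : Type) (_ : Finite ι) (X : Type) (_ : Finite X) (C : Str σ X) (u v : ι → X),
      (∃ a : Fin 3 → ι → M, ∀ i j, i ≠ j → ∃ h, IsHom C A h ∧ h ∘ u = a i ∧ h ∘ v = a j) ∧
        ∃ g : (ι → M) → Fin 3, ∀ h, IsHom C A h → g (h ∘ u) ≠ g (h ∘ v) := by
  constructor
  · rintro ⟨ι, hι, P, h1, ⟨g, hg⟩, ⟨a, ha⟩⟩
    obtain ⟨X, hX, C, x, hx⟩ := h1 ()
    refine ⟨ι, hι, X, hX, C, fun i => x (false, i), fun i => x (true, i), ⟨a, fun i j hij => ?_⟩, g,
      fun h hh => ?_⟩
    · have h2 : P () (a ∘ fun b : Bool => if b then j else i) := ha () _ (by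
        change (if false then j else i) ≠ if true then j else i
        simpa using hij)
      obtain ⟨h, hh, he⟩ := (hx fun p => a (if p.1 then j else i) p.2).1 h2
      refine ⟨h, hh, ?_, ?_⟩
      · funext p
        exact congrFun he (false, p)
      · funext p
        exact congrFun he (true, p)
    · have h2 := (hx (h ∘ x)).2 ⟨h, hh, rfl⟩
      exact hg () _ h2
  · rintro ⟨ι, hι, X, hX, C, u, v, ⟨a, ha⟩, g, hg⟩
    refine ⟨ι, hι, fun _ t => ∃ h, IsHom C A h ∧ h ∘ u = t false ∧ h ∘ v = t true,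
      fun _ => ⟨X, hX, C, fun p => if p.1 then v p.2 else u p.2, fun b => ?_⟩, ⟨g, ?_⟩, a, ?_⟩
    · constructor
      · rintro ⟨h, h1, h2, h3⟩
        refine ⟨h, h1, ?_⟩
        funext ⟨b', p⟩
        cases b'
        · exact congrFun h2 p
        · exact congrFun h3 p
      · rintro ⟨h, h1, rfl⟩
        exact ⟨h, h1, rfl, rfl⟩
    · rintro _ t ⟨h, h1, h2, h3⟩
      change g (t false) ≠ g (t true)
      rw [← h2, ← h3]
      exact hg h h1
    · intro _ t ht
      exact ha _ _ ht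

/-- from the structure to the blow-up -/
theorem ppK3_up {A : Str σ M} {c : (Fin (k + 1) → V) → M} (hc : Ext c)
    (hA : PPConstructs A K3) : PPConstructs (blowStr A c) K3 := by
  classical
  rw [ppK3_iff] at hA ⊢
  obtain ⟨ι, hι, X, hX, C, u, v, ⟨a, ha⟩, g, hg⟩ := hA
  choose s hs using hc.surj
  refine ⟨ι × Fin (k + 1), inferInstance, X × Fin (k + 1), inferInstance, upStr k C,
    fun p => (u p.1, p.2), fun p => (v p.1, p.2), ⟨fun i p => s (a i p.1) p.2, fun i j hij => ?_⟩,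
    fun b => g fun i => c fun j => b (i, j), fun h hh => ?_⟩
  · obtain ⟨h, hh, h1, h2⟩ := ha i j hij
    refine ⟨_, hom_to_up hh s hs, ?_, ?_⟩
    · funext p
      change s ((h ∘ u) p.1) p.2 = _
      rw [h1]
    · funext p
      change s ((h ∘ v) p.1) p.2 = _
      rw [h2]
  · exact hg _ (hom_of_up hh).1

/-- from the blow-up to the structure -/
theorem ppK3_down {A : Str σ M} [Countable M] [Nonempty M] {c : (Fin (k + 1) → V) → M}
    (hc : Ext c) (hA : PPConstructs (blowStr A c) K3) : PPConstructs A K3 := by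
  classical
  rw [ppK3_iff] at hA ⊢
  obtain ⟨ι, hι, X, hX, C, u, v, ⟨a, ha⟩, g, hg⟩ := hA
  choose! hf hf1 hf2 hf3 using ha
  -- separate the points
  let Idx := {p : Fin 3 × Fin 3 // p.1 ≠ p.2}
  let H : X → Idx → V := fun x p => hf p.1.1 p.1.2 p.2 x
  let Y := Set.range H
  let π : X → Y := fun x => ⟨H x, x, rfl⟩
  let D : Str (blow σ k) Y := fun s t => ∃ w, C s w ∧ t = π ∘ w
  have hπ : IsHom C D π := fun s w hw => ⟨w, hw, rfl⟩
  have hh : ∀ i j, ∀ hij : i ≠ j, IsHom D (blowStr A c) fun y => y.1 ⟨(i, j), hij⟩ := by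
    rintro i j hij s _ ⟨w, hw, rfl⟩
    exact hf1 i j hij s w hw
  have hu : ∀ i j, ∀ hij : i ≠ j, ∀ p, (π (u p)).1 ⟨(i, j), hij⟩ = a i p := fun i j hij p =>
    congrFun (hf2 i j hij) p
  have hv : ∀ i j, ∀ hij : i ≠ j, ∀ p, (π (v p)).1 ⟨(i, j), hij⟩ = a j p := fun i j hij p =>
    congrFun (hf3 i j hij) p
  have hsep : ∀ y y' : Y, (∀ i j, ∀ hij : i ≠ j, y.1 ⟨(i, j), hij⟩ = y'.1 ⟨(i, j), hij⟩) →
      y = y' := by
    intro y y' h
    apply Subtype.ext
    funext ⟨⟨i, j⟩, hij⟩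
    exact h i j hij
  have hother : ∀ i : Fin 3, ∃ j, i ≠ j := by decide
  have hother' : ∀ i : Fin 3, ∃ j, j ≠ i := by decide
  have hthird : ∀ i j : Fin 3, ∃ l, i ≠ l ∧ j ≠ l := by decide
  have huu : ∀ p q, π (u p) = π (u q) ↔ ∀ i, a i p = a i q := by
    intro p q
    constructor
    · intro h i
      obtain ⟨j, hij⟩ := hother i
      rw [← hu i j hij, ← hu i j hij, h]
    · intro h
      refine hsep _ _ fun i j hij => ?_
      rw [hu, hu, h]
  have hvv : ∀ p q, π (v p) = π (v q) ↔ ∀ i, a i p = a i q := by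
    intro p q
    constructor
    · intro h i
      obtain ⟨j, hij⟩ := hother' i
      rw [← hv j i hij, ← hv j i hij, h]
    · intro h
      refine hsep _ _ fun i j hij => ?_
      rw [hv, hv, h]
  have hpos : Pos (π ∘ u) (π ∘ v) := by
    refine ⟨fun p q => (huu p q).trans (hvv p q).symm, fun p q h => ?_⟩
    change π (u p) = π (v q) at h
    have h1 : ∀ i j, i ≠ j → a i p = a j q := by
      intro i j hij
      rw [← hu i j hij, ← hv i j hij, h]
    have h2 : ∀ i j, a i p = a j p := by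
      intro i j
      obtain ⟨l, h3, h4⟩ := hthird i j
      rw [h1 i l h3, h1 j l h4]
    have h3 : ∀ i j, a i q = a j q := by
      intro i j
      obtain ⟨l, h4, h5⟩ := hthird i j
      rw [← h1 l i h4.symm, ← h1 l j h5.symm]
    constructor
    · refine hsep _ _ fun i j hij => ?_
      change (π (u p)).1 _ = (π (v p)).1 _
      rw [hu, hv, h2]
    · refine hsep _ _ fun i j hij => ?_
      change (π (u q)).1 _ = (π (v q)).1 _
      rw [hu, hv, h3]
  have h01 : (0 : Fin 3) ≠ 1 := by decide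
  have hC : Proper D := proper_of_hom (hh 0 1 h01)
  obtain ⟨g', hg'⟩ := coloring (A := A) hc hpos hC (g := g) fun h hhom =>
    hg (h ∘ π) fun s w hw => hhom s _ (hπ s w hw)
  refine ⟨Fin (k + 1) → ι, inferInstance, Tup D, inferInstance, downStr D,
    fun j => Quot.mk _ ((π ∘ u) ∘ j), fun j => Quot.mk _ ((π ∘ v) ∘ j),
    ⟨fun i j => c fun l => a i (j l), fun i j hij => ?_⟩, g', hg'⟩
  refine ⟨tupVal (hh i j hij), tupVal_hom _, ?_, ?_⟩
  · funext t
    change c (fun l => (π (u (t l))).1 ⟨(i, j), hij⟩) = _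
    congr 1
    funext l
    exact hu i j hij _
  · funext t
    change c (fun l => (π (v (t l))).1 ⟨(i, j), hij⟩) = _
    congr 1
    funext l
    exact hv i j hij _

end

end Pool.Agent.H69.BP
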