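import Pool.Agent.H69.BP.Pp

/-!
# The blow-up of a reduct is a reduct of the blow-up
-/

set_option autoImplicit false

namespace Pool.Agent.H69.BP

section
variable {σ τ : Sig} {M V : Type} {k : ℕ}

/-- the correspondence of the positions -/
def blowEquiv {f : σ.Sym → τ.Sym} (e : ∀ s, σ.Ar s ≃ τ.Ar (f s)) :
    ∀ s : (blow σ k).Sym, (blow σ k).Ar s ≃ (blow τ k).Ar (Option.map f s)
  | none => Equiv.refl _
  | some s => (e s).prodCongr (Equiv.refl _)

theorem blow_isReduct {A : Str σ M} {B : Str τ M} (h : IsReduct A B)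
    (c : (Fin (k + 1) → V) → M) : IsReduct (blowStr A c) (blowStr B c) := by
  obtain ⟨f, e, h1, h2⟩ := h
  refine ⟨Option.map f, blowEquiv e, Option.map_injective h1, fun s => ?_⟩
  cases s with
  | none => exact fun t => Iff.rfl
  | some s =>
    intro (t : σ.Ar s × Fin (k + 1) → V)
    change upRel (A s) c t ↔ upRel (B (f s)) c (t ∘ ((e s).prodCongr (Equiv.refl _)).symm)
    constructor
    · rintro ⟨h3, h4⟩
      refine ⟨fun i => h3 ((e s).symm i), ?_⟩
      exact (h2 s _).1 h4
    · rintro ⟨h3, h4⟩
      refine ⟨fun i => ?_, ?_⟩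
      · have h5 := h3 (e s i)
        have h6 : (fun j => (t ∘ ((e s).prodCongr (Equiv.refl (Fin (k + 1)))).symm) (e s i, j)) =
            fun j => t (i, j) := by
          funext j
          change t ((e s).symm (e s i), j) = _
          rw [Equiv.symm_apply_apply]
        rwa [h6] at h5
      · exact (h2 s _).2 h4

theorem NoAlgebraicity.infinite {B : Str σ M} (h : NoAlgebraicity B) [Nonempty M] :
    Infinite M := by
  obtain ⟨v⟩ := ‹Nonempty M›
  have h1 := h ∅ v (by simp)
  exact Set.infinite_univ_iff.1 (h1.mono (Set.subset_univ _))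

end

end Pool.Agent.H69.BP
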